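import Mathlib
import Pool.Agent.TH876.FH.Def
import Pool.Agent.TH876.NP.Def2

set_option autoImplicit false

/-!
# Semistable elliptic curves with a rational point of order two or three: definitions and statements
-/

namespace Pool.Agent.TH876.TT

open NumberField IsDedekindDomain
open Pool.Agent.TH876.FH (faltings IsPeriod GoodAt badNorm)

/-- a `K`-rational point of order `m` for `m = 2` and `m = 3`: a zero of the second division
polynomial, a point whose first coordinate is a zero of the third division polynomial -/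
def TorsionPoint {K : Type} [Field K] (m : ℕ) (E : WeierstrassCurve K) : Prop :=
  (m = 2 ∧ ∃ x : K, 4 * x ^ 3 + E.b₂ * x ^ 2 + 2 * E.b₄ * x + E.b₆ = 0) ∨
  (m = 3 ∧ ∃ x y : K, y ^ 2 + E.a₁ * x * y + E.a₃ * y = x ^ 3 + E.a₂ * x ^ 2 + E.a₄ * x + E.a₆ ∧
    3 * x ^ 4 + E.b₂ * x ^ 3 + 3 * E.b₄ * x ^ 2 + 3 * E.b₆ * x + E.b₈ = 0)

/-- semistable reduction at `v` -/
def SemistableAt {K : Type} [Field K] [NumberField K] (v : HeightOneSpectrum (𝓞 K))
    (E : WeierstrassCurve K) : Prop :=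
  ∃ C : WeierstrassCurve.VariableChange K,
    v.valuation K (C • E).a₁ ≤ 1 ∧ v.valuation K (C • E).a₂ ≤ 1 ∧ v.valuation K (C • E).a₃ ≤ 1 ∧
    v.valuation K (C • E).a₄ ≤ 1 ∧ v.valuation K (C • E).a₆ ≤ 1 ∧
    (v.valuation K (C • E).Δ = 1 ∨ v.valuation K (C • E).c₄ = 1)

/-- the relation between the modular invariant and the parameter -/
def Rel {K : Type} [Field K] (m : ℕ) (j x : K) : Prop :=
  (m = 2 ∧ j * x = 64 * (4 * x - 1) ^ 3) ∨ (m = 3 ∧ j * x = 27 * (1 - x) * (9 * x - 1) ^ 3)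

/-- the intersection number of `x` and `1` at `v` is divisible by `m` -/
def StackyAt {K : Type} [Field K] [NumberField K] (m : ℕ) (v : HeightOneSpectrum (𝓞 K))
    (x : K) : Prop :=
  ∃ a : ℕ, v.valuation K (x - 1) =
    max (v.valuation K x) 1 * WithZero.exp (-((m * a : ℕ) : ℤ))

/-- what we need about the parameter `x` of an elliptic curve -/
def IsPar {K : Type} [Field K] [NumberField K] (m : ℕ) (E : WeierstrassCurve K) (x : K) : Prop :=
  x ≠ 0 ∧ Rel m (E.c₄ ^ 3 / E.Δ) x ∧ (x ≠ 1 → ∀ v : HeightOneSpectrum (𝓞 K),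
    v.valuation K (6 : K) = 1 → SemistableAt v E →
      StackyAt m v x ∧ (v.valuation K x ≠ 1 → ¬ GoodAt v E))

/-- the parameter of a curve with a point of order two -/
def ParTwoS : Prop := ∀ (K : Type) [Field K] [NumberField K] (E : WeierstrassCurve K), E.Δ ≠ 0 →
  TorsionPoint 2 E → ∃ x : K, IsPar 2 E x

/-- the parameter of a curve with a point of order three -/
def ParThreeS : Prop := ∀ (K : Type) [Field K] [NumberField K] (E : WeierstrassCurve K), E.Δ ≠ 0 →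
  TorsionPoint 3 E → ∃ x : K, IsPar 3 E x

/-- the bad primes are finite in number -/
def BadS : Prop := ∀ (K : Type) [Field K] [NumberField K] (E : WeierstrassCurve K), E.Δ ≠ 0 →
  {v : HeightOneSpectrum (𝓞 K) | ¬ GoodAt v E}.Finite

/-- the heights of the modular invariant and the parameter -/
def JhS : Prop := ∀ (K : Type) [Field K] [NumberField K] (m : ℕ), ∃ c : ℝ, 0 ≤ c ∧ ∀ j x : K,
  x ≠ 0 → Rel m j x → Height.logHeight₁ x ≤ Height.logHeight₁ j + c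

/-- the parameters of the curves which are semistable outside `S` with product of the norms of the
bad primes at most `X` and bad primes of norm at most `y` -/
def Par {K : Type} [Field K] [NumberField K] (m : ℕ) (S : Set (HeightOneSpectrum (𝓞 K)))
    (y H X : ℝ) (x : K) : Prop :=
  x ≠ 0 ∧ 1 ≤ X ∧ Height.logHeight₁ x ≤ H ∧ (x = 1 ∨
    ((∀ v : HeightOneSpectrum (𝓞 K), v ∉ S → v.valuation K (6 : K) = 1 → StackyAt m v x) ∧
    ∃ T : Finset (HeightOneSpectrum (𝓞 K)), ∏ v ∈ T, (Ideal.absNorm v.asIdeal : ℝ) ≤ X ∧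
      (∀ v ∈ T, v ∉ S → (Ideal.absNorm v.asIdeal : ℝ) ≤ y) ∧
      ∀ v, v ∉ T → v ∉ S → v.valuation K (6 : K) = 1 → v.valuation K x = 1))

/-- the count of the parameters -/
def CntS : Prop := ∀ (K : Type) [Field K] [NumberField K] (m : ℕ)
  (S : Set (HeightOneSpectrum (𝓞 K))), S.Finite → 2 ≤ m → ∀ ε : ℝ, 0 < ε → ∃ C : ℝ, 0 ≤ C ∧
  ∀ y H X : ℝ, 1 ≤ y → 1 ≤ H → 1 ≤ X → {x : K | Par m S y H X x}.Finite ∧
    ({x : K | Par m S y H X x}.ncard : ℝ) ≤
      C * (y * (1 + Real.log H)) * X ^ (((m : ℝ) + 1) / (2 * m) + ε)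

/-- products: here `P i X x` says that `x` has radical at most `X` -/
def ProdS : Prop := ∀ (ι α : Type) (P : ι → ℝ → α → Prop) (W : ι → ℝ) (θ : ℝ), 0 ≤ θ →
  (∀ i, 1 ≤ W i) → (∀ i x X Y, P i X x → X ≤ Y → P i Y x) → (∀ i x X, P i X x → 1 ≤ X) →
  (∀ ε : ℝ, 0 < ε → ∃ C : ℝ, 0 ≤ C ∧ ∀ (i : ι) (X : ℝ), 1 ≤ X →
    {x | P i X x}.Finite ∧ ({x | P i X x}.ncard : ℝ) ≤ C * W i * X ^ (θ + ε)) →
  ∀ (g : ℕ) (ε : ℝ), 0 < ε → ∃ C : ℝ, 0 ≤ C ∧ ∀ (i : ι) (X : ℝ), 1 ≤ X →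
    {x : Fin g → α | ∃ Y : Fin g → ℝ, (∀ k, P i (Y k) (x k)) ∧ ∏ k, Y k ≤ X}.Finite ∧
    ({x : Fin g → α | ∃ Y : Fin g → ℝ, (∀ k, P i (Y k) (x k)) ∧ ∏ k, Y k ≤ X}.ncard : ℝ) ≤
      C * W i ^ g * X ^ (θ + ε)

/-- the `g`-tuples of modular invariants of the products of `g` elliptic curves over `K`, semistable
outside `S`, with a rational point of order `m`, with bad primes outside `S` of norm at most `y`,
product of the norms of the bad primes (of each factor) at most `X` and Faltings height at most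
`H` -/
def Classes (K : Type) [Field K] [NumberField K] (m : ℕ) (S : Set (HeightOneSpectrum (𝓞 K)))
    (g : ℕ) (X y H : ℝ) : Set (Fin g → K) :=
  {j | ∃ (E : Fin g → WeierstrassCurve K) (τ : Fin g → InfinitePlace K → UpperHalfPlane),
    (∀ i, (E i).Δ ≠ 0 ∧ TorsionPoint m (E i) ∧ (∀ v, v ∉ S → SemistableAt v (E i)) ∧
      (∀ v, v ∉ S → ¬ GoodAt v (E i) → (Ideal.absNorm v.asIdeal : ℝ) ≤ y) ∧
      (E i).c₄ ^ 3 / (E i).Δ = j i ∧ IsPeriod (j i) (τ i)) ∧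
    ∏ i, badNorm (E i) ≤ X ∧ ∑ i, faltings (j i) (τ i) ≤ H}

/-- the count -/
def MainS : Prop := ∀ (K : Type) [Field K] [NumberField K] (m : ℕ)
  (S : Set (HeightOneSpectrum (𝓞 K))), (m = 2 ∨ m = 3) → S.Finite → ∀ (g : ℕ) (ε : ℝ), 0 < ε →
  ∃ C : ℝ, ∀ X y H : ℝ, 1 ≤ X → 1 ≤ y → 1 ≤ H → (Classes K m S g X y H).Finite ∧
    ((Classes K m S g X y H).ncard : ℝ) ≤
      C * y ^ g * X ^ (((m : ℝ) + 1) / (2 * m) + ε) * (1 + Real.log H) ^ g

/-- the violators of `h_F(A) ≤ κ log R + c` with `h_F(A) ≤ log B` -/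
def Viol (K : Type) [Field K] [NumberField K] (m : ℕ) (S : Set (HeightOneSpectrum (𝓞 K)))
    (g : ℕ) (κ c y B : ℝ) : Set (Fin g → K) :=
  {j | ∃ (E : Fin g → WeierstrassCurve K) (τ : Fin g → InfinitePlace K → UpperHalfPlane),
    (∀ i, (E i).Δ ≠ 0 ∧ TorsionPoint m (E i) ∧ (∀ v, v ∉ S → SemistableAt v (E i)) ∧
      (∀ v, v ∉ S → ¬ GoodAt v (E i) → (Ideal.absNorm v.asIdeal : ℝ) ≤ y) ∧
      (E i).c₄ ^ 3 / (E i).Δ = j i ∧ IsPeriod (j i) (τ i)) ∧
    ∑ i, faltings (j i) (τ i) ≤ Real.log B ∧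
    κ * Real.log (∏ i, badNorm (E i)) + c < ∑ i, faltings (j i) (τ i)}

/-- the count of violators -/
def ViolS : Prop := ∀ (K : Type) [Field K] [NumberField K] (m : ℕ)
  (S : Set (HeightOneSpectrum (𝓞 K))), (m = 2 ∨ m = 3) → S.Finite →
  ∀ (g : ℕ) (κ c δ : ℝ), 0 < κ → 0 < δ → ∃ C : ℝ, ∀ y B : ℝ, 1 ≤ y → 1 ≤ B →
  (Viol K m S g κ c y B).Finite ∧ ((Viol K m S g κ c y B).ncard : ℝ) ≤
    C * y ^ g * B ^ (((m : ℝ) + 1) / (2 * m * κ) + δ)

end Pool.Agent.TH876.TT
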