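import Mathlib
import Pool.Agent.TH876.TT.Def

set_option autoImplicit false

namespace Pool.Agent.TH876.TT

open NumberField IsDedekindDomain

theorem bad : BadS := by
  intro K _ _ E hE
  have hf := fun k : K => HeightOneSpectrum.Support.finite (𝓞 K) k
  refine ((hf E.a₁).union ((hf E.a₂).union ((hf E.a₃).union ((hf E.a₄).union
    ((hf E.a₆).union ((hf E.Δ).union (hf E.Δ⁻¹))))))).subset ?_
  intro v hv
  by_contra hc
  simp only [HeightOneSpectrum.Support, Set.mem_union, Set.mem_ofPred_eq, not_or, not_lt] at hc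
  obtain ⟨c1, c2, c3, c4, c6, c7, c8⟩ := hc
  apply hv
  refine ⟨1, ?_⟩
  rw [one_smul]
  refine ⟨c1, c2, c3, c4, c6, le_antisymm c7 ?_⟩
  have h0 : v.valuation K E.Δ ≠ 0 := (Valuation.ne_zero_iff _).2 hE
  rw [map_inv₀] at c8
  exact (inv_le_one₀ (zero_lt_iff.2 h0)).1 c8

end Pool.Agent.TH876.TT
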