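import Mathlib
import Pool.Agent.TH876.TT.Def

set_option autoImplicit false

/-!
# The heights of the modular invariant and of the parameter

The forms `64 (4 X - Y) ^ 3, X Y ^ 2` and `27 (Y - X) (9 X - Y) ^ 3, X Y ^ 3` have no common zeros;
the explicit relations are the ones needed in `Height.logHeight_eval_ge'`.
-/

namespace Pool.Agent.TH876.TT

open NumberField IsDedekindDomain MvPolynomial

section

variable {K : Type} [Field K]

lemma Jh_mon (c : K) (a b n : ℕ) (h : a + b = n) :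
    (C c * X 0 ^ a * X 1 ^ b : MvPolynomial (Fin 2) K).IsHomogeneous n := by
  have h1 : (C c * X 0 ^ a * X 1 ^ b : MvPolynomial (Fin 2) K).IsHomogeneous
      (0 + 1 * a + 1 * b) :=
    ((isHomogeneous_C _ c).mul ((isHomogeneous_X K 0).pow a)).mul ((isHomogeneous_X K 1).pow b)
  have h2 : 0 + 1 * a + 1 * b = n := by omega
  rwa [h2] at h1

/-- the forms of degree `2` -/
noncomputable def Jh_q2 (a : Fin 2 × Fin 2) : MvPolynomial (Fin 2) K :=
  (![![C (1 / 4096) * X 0 ^ 2 * X 1 ^ 0 + C (3 / 16384) * X 0 ^ 1 * X 1 ^ 1,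
      C (3 / 8) * X 0 ^ 2 * X 1 ^ 0 + C (-1 / 8) * X 0 ^ 1 * X 1 ^ 1 +
        C (3 / 256) * X 0 ^ 0 * X 1 ^ 2],
    ![C (-1 / 64) * X 0 ^ 0 * X 1 ^ 2,
      C 64 * X 0 ^ 2 * X 1 ^ 0 + C (-48) * X 0 ^ 1 * X 1 ^ 1 +
        C 12 * X 0 ^ 0 * X 1 ^ 2]] : Fin 2 → Fin 2 →
    MvPolynomial (Fin 2) K) a.1 a.2

lemma Jh_hom2 (a : Fin 2 × Fin 2) : (Jh_q2 a : MvPolynomial (Fin 2) K).IsHomogeneous 2 := by
  obtain ⟨i, j⟩ := a
  have k : ∀ (c : K) (a b : ℕ), a + b = 2 →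
      (C c * X 0 ^ a * X 1 ^ b : MvPolynomial (Fin 2) K).IsHomogeneous 2 :=
    fun c a b h => Jh_mon c a b 2 h
  fin_cases i <;> fin_cases j
  · exact (k _ 2 0 rfl).add (k _ 1 1 rfl)
  · exact ((k _ 2 0 rfl).add (k _ 1 1 rfl)).add (k _ 0 2 rfl)
  · exact k _ 0 2 rfl
  · exact ((k _ 2 0 rfl).add (k _ 1 1 rfl)).add (k _ 0 2 rfl)

/-- the two forms of degree `3` -/
noncomputable def Jh_p2 : Fin 2 → MvPolynomial (Fin 2) K :=
  ![C 64 * (C 4 * X 0 - X 1) ^ 3, X 0 * X 1 ^ 2]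

/-- the forms of degree `3` -/
noncomputable def Jh_q3 (a : Fin 2 × Fin 2) : MvPolynomial (Fin 2) K :=
  (![![C (-1 / 19683) * X 0 ^ 3 * X 1 ^ 0 + C (-4 / 59049) * X 0 ^ 2 * X 1 ^ 1 +
        C (-38 / 531441) * X 0 ^ 1 * X 1 ^ 2,
      C (1036 / 729) * X 0 ^ 3 * X 1 ^ 0 + C (-1031 / 2187) * X 0 ^ 2 * X 1 ^ 1 +
        C (1028 / 19683) * X 0 ^ 1 * X 1 ^ 2 + C (-38 / 19683) * X 0 ^ 0 * X 1 ^ 3],
    ![C (-1 / 27) * X 0 ^ 0 * X 1 ^ 3,
      C (-729) * X 0 ^ 3 * X 1 ^ 0 + C 972 * X 0 ^ 2 * X 1 ^ 1 +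
        C (-270) * X 0 ^ 1 * X 1 ^ 2 + C 28 * X 0 ^ 0 * X 1 ^ 3]] : Fin 2 → Fin 2 →
    MvPolynomial (Fin 2) K) a.1 a.2

lemma Jh_hom3 (a : Fin 2 × Fin 2) : (Jh_q3 a : MvPolynomial (Fin 2) K).IsHomogeneous 3 := by
  obtain ⟨i, j⟩ := a
  have k : ∀ (c : K) (a b : ℕ), a + b = 3 →
      (C c * X 0 ^ a * X 1 ^ b : MvPolynomial (Fin 2) K).IsHomogeneous 3 :=
    fun c a b h => Jh_mon c a b 3 h
  fin_cases i <;> fin_cases j
  · exact ((k _ 3 0 rfl).add (k _ 2 1 rfl)).add (k _ 1 2 rfl)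
  · exact (((k _ 3 0 rfl).add (k _ 2 1 rfl)).add (k _ 1 2 rfl)).add (k _ 0 3 rfl)
  · exact k _ 0 3 rfl
  · exact (((k _ 3 0 rfl).add (k _ 2 1 rfl)).add (k _ 1 2 rfl)).add (k _ 0 3 rfl)

/-- the two forms of degree `4` -/
noncomputable def Jh_p3 : Fin 2 → MvPolynomial (Fin 2) K :=
  ![C 27 * (X 1 - X 0) * (C 9 * X 0 - X 1) ^ 3, X 0 * X 1 ^ 3]

end

theorem Jh_two (K : Type) [Field K] [NumberField K] : ∃ c : ℝ, ∀ j x : K,
    x ≠ 0 → j * x = 64 * (4 * x - 1) ^ 3 →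
      3 * Height.logHeight₁ x ≤ Height.logHeight₁ j + c := by
  obtain ⟨C0, hC⟩ := Height.logHeight_eval_ge' (K := K) (M := 2) (N := 3) (q := Jh_q2)
    (fun a => Jh_hom2 a)
  refine ⟨-C0, fun j x h0 hj => ?_⟩
  have hrel : ∀ k : Fin 2, ∑ i : Fin 2, (Jh_q2 (k, i) : MvPolynomial (Fin 2) K).eval ![x, 1] *
      (Jh_p2 i).eval ![x, 1] = (![x, 1] : Fin 2 → K) k ^ (2 + 3) := by
    intro k
    fin_cases k
    · simp only [Fin.sum_univ_two, Jh_q2, Jh_p2, Fin.zero_eta, Fin.isValue, Matrix.cons_val_zero,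
        Matrix.cons_val_one, map_add, map_sub, map_mul, map_pow, eval_C, eval_X]
      field_simp
      ring
    · simp only [Fin.sum_univ_two, Jh_q2, Jh_p2, Fin.mk_one, Fin.isValue, Matrix.cons_val_zero,
        Matrix.cons_val_one, map_add, map_sub, map_mul, map_pow, eval_C, eval_X]
      field_simp
      ring
  have h := hC Jh_p2 hrel
  have hj2 : j = (64 * (4 * x - 1) ^ 3) / x := by
    rw [eq_div_iff h0]; exact hj
  have hfun : (fun i => (Jh_p2 i : MvPolynomial (Fin 2) K).eval ![x, 1]) =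
      ![64 * (4 * x - 1) ^ 3, x] := by
    funext i
    fin_cases i
    · simp [Jh_p2]
    · simp [Jh_p2]
  rw [hfun, ← Height.logHeight₁_eq_logHeight] at h
  rw [hj2, Height.logHeight₁_div_eq_logHeight]
  push_cast at h
  linarith

theorem Jh_three (K : Type) [Field K] [NumberField K] : ∃ c : ℝ, ∀ j x : K,
    x ≠ 0 → j * x = 27 * (1 - x) * (9 * x - 1) ^ 3 →
      4 * Height.logHeight₁ x ≤ Height.logHeight₁ j + c := by
  obtain ⟨C0, hC⟩ := Height.logHeight_eval_ge' (K := K) (M := 3) (N := 4) (q := Jh_q3)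
    (fun a => Jh_hom3 a)
  refine ⟨-C0, fun j x h0 hj => ?_⟩
  have hrel : ∀ k : Fin 2, ∑ i : Fin 2, (Jh_q3 (k, i) : MvPolynomial (Fin 2) K).eval ![x, 1] *
      (Jh_p3 i).eval ![x, 1] = (![x, 1] : Fin 2 → K) k ^ (3 + 4) := by
    intro k
    fin_cases k
    · simp only [Fin.sum_univ_two, Jh_q3, Jh_p3, Fin.zero_eta, Fin.isValue, Matrix.cons_val_zero,
        Matrix.cons_val_one, map_add, map_sub, map_mul, map_pow, eval_C, eval_X]
      field_simp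
      ring
    · simp only [Fin.sum_univ_two, Jh_q3, Jh_p3, Fin.mk_one, Fin.isValue, Matrix.cons_val_zero,
        Matrix.cons_val_one, map_add, map_sub, map_mul, map_pow, eval_C, eval_X]
      field_simp
      ring
  have h := hC Jh_p3 hrel
  have hj2 : j = (27 * (1 - x) * (9 * x - 1) ^ 3) / x := by
    rw [eq_div_iff h0]; exact hj
  have hfun : (fun i => (Jh_p3 i : MvPolynomial (Fin 2) K).eval ![x, 1]) =
      ![27 * (1 - x) * (9 * x - 1) ^ 3, x] := by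
    funext i
    fin_cases i
    · simp [Jh_p3]
    · simp [Jh_p3]
  rw [hfun, ← Height.logHeight₁_eq_logHeight] at h
  rw [hj2, Height.logHeight₁_div_eq_logHeight]
  push_cast at h
  linarith

theorem jh : JhS := by
  intro K _ _ m
  obtain ⟨c2, h2⟩ := Jh_two K
  obtain ⟨c3, h3⟩ := Jh_three K
  refine ⟨|c2| + |c3|, by positivity, fun j x hx hr => ?_⟩
  have h0 := Height.zero_le_logHeight₁ x
  rcases hr with ⟨-, hr⟩ | ⟨-, hr⟩
  · have := h2 j x hx hr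
    have := le_abs_self c2
    have := abs_nonneg c3
    linarith
  · have := h3 j x hx hr
    have := le_abs_self c3
    have := abs_nonneg c2
    linarith

end Pool.Agent.TH876.TT
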