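import Mathlib
import Pool.Agent.TH876.TT.Def

set_option autoImplicit false

/-!
# Semistable elliptic curves with a rational point of order two or three: assembly
-/

namespace Pool.Agent.TH876.TT

open NumberField IsDedekindDomain

/-- the map from the parameters to the modular invariants -/
noncomputable def Main_map {K : Type} [Field K] (m g : ℕ) (x : Fin g → K) : Fin g → K := fun i =>
  if m = 2 then 64 * (4 * x i - 1) ^ 3 / x i else 27 * (1 - x i) * (9 * x i - 1) ^ 3 / x i

lemma Main_one_le {K : Type} [Field K] [NumberField K] (T : Finset (HeightOneSpectrum (𝓞 K))) :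
    1 ≤ ∏ v ∈ T, (Ideal.absNorm v.asIdeal : ℝ) := by
  rw [← Nat.cast_prod]
  have h1 : 1 ≤ ∏ v ∈ T, Ideal.absNorm v.asIdeal := by
    rw [Nat.one_le_iff_ne_zero, Finset.prod_ne_zero_iff]
    intro v _ h0
    rw [Ideal.absNorm_eq_zero_iff] at h0
    exact v.ne_bot h0
  exact_mod_cast h1

lemma Main_log {a b : ℝ} (ha : 1 ≤ a) (hb : 1 ≤ b) :
    1 + Real.log (a * b) ≤ (1 + Real.log a) * (1 + Real.log b) := by
  rw [Real.log_mul (by positivity) (by positivity)]
  nlinarith [mul_nonneg (Real.log_nonneg ha) (Real.log_nonneg hb)]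

theorem main (h1 : Pool.Agent.TH876.FH.HjS) (h2 : ParTwoS) (h3 : ParThreeS) (h4 : BadS) (h5 : JhS)
    (h6 : CntS) (h7 : ProdS) : MainS := by
  intro K _ _ m S hm hS g ε hε
  have hn : (0 : ℝ) < Module.finrank ℚ K := by exact_mod_cast Module.finrank_pos
  set n : ℝ := (Module.finrank ℚ K : ℝ) with hnd
  have hm2 : 2 ≤ m := by omega
  obtain ⟨c1, hc1⟩ := (h1 K).1 1 one_pos
  obtain ⟨c5, hc50, hc5⟩ := h5 K m
  set c0 : ℝ := |c1| / (24 * n) with hc0
  have hc00 : 0 ≤ c0 := by positivity
  -- lower bound for the Faltings height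
  have hF : ∀ (j : K) (τ : InfinitePlace K → UpperHalfPlane), Pool.Agent.TH876.FH.IsPeriod j τ →
      -c0 ≤ Pool.Agent.TH876.FH.faltings j τ := by
    intro j τ hj
    have h6 := hc1 j τ hj
    have h7 := Height.zero_le_logHeight₁ j
    have h8 : 24 * n * c0 = |c1| := by
      rw [hc0]
      field_simp
    have h9 := le_abs_self c1
    by_contra hcon
    rw [not_le] at hcon
    have h10 : 24 * n * Pool.Agent.TH876.FH.faltings j τ < 24 * n * (-c0) :=
      mul_lt_mul_of_pos_left hcon (by positivity)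
    nlinarith
  set C1 : ℝ := 24 * n * (1 + g * c0) + |c1| + c5 + 1 with hC1
  have hC11 : 1 ≤ C1 := by
    have : 0 ≤ 24 * n * (1 + g * c0) + |c1| + c5 := by positivity
    linarith
  have hθ : (0 : ℝ) ≤ ((m : ℝ) + 1) / (2 * m) := by positivity
  obtain ⟨C, hC0, hC⟩ := h7 {p : ℝ × ℝ // 1 ≤ p.1 ∧ 1 ≤ p.2} K
    (fun i X x => Par m S i.1.1 i.1.2 X x) (fun i => i.1.1 * (1 + Real.log i.1.2))
    (((m : ℝ) + 1) / (2 * m)) hθ
    (fun i => by
      have e1 := i.2.1
      have e2 := Real.log_nonneg i.2.2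
      nlinarith)
    (fun i x X Y hx hXY => ⟨hx.1, hx.2.1.trans hXY, hx.2.2.1, by
      rcases hx.2.2.2 with e | ⟨e, T, hT, hT'⟩
      · exact Or.inl e
      · exact Or.inr ⟨e, T, hT.trans hXY, hT'⟩⟩)
    (fun i x X hx => hx.2.1)
    (fun ε' hε' => by
      obtain ⟨C, hC0, hC⟩ := h6 K m S hS hm2 ε' hε'
      exact ⟨C, hC0, fun i X hX => hC i.1.1 i.1.2 X i.2.1 i.2.2 hX⟩) g ε hε
  refine ⟨C * (1 + Real.log C1) ^ g, ?_⟩
  intro X y H hX hy hH
  have hCH : 1 ≤ C1 * H := by nlinarith
  obtain ⟨hfin, hcard⟩ := hC ⟨(y, C1 * H), hy, hCH⟩ X hX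
  simp only at hfin hcard
  set A : Set (Fin g → K) := {x : Fin g → K | ∃ Y : Fin g → ℝ,
    (∀ k, Par m S y (C1 * H) (Y k) (x k)) ∧ ∏ k, Y k ≤ X} with hA
  have hsub : Classes K m S g X y H ⊆ Main_map m g '' A := by
    rintro j ⟨E, τ, hE, hbad, hHt⟩
    have hpar : ∀ i, ∃ x : K, IsPar m (E i) x := by
      intro i
      obtain ⟨hΔ, htor, -⟩ := hE i
      rcases hm with rfl | rfl
      · exact h2 K (E i) hΔ htor
      · exact h3 K (E i) hΔ htor
    choose x hx using hpar
    refine ⟨x, ⟨fun i => Pool.Agent.TH876.FH.badNorm (E i), ?_, hbad⟩, ?_⟩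
    · intro i
      obtain ⟨hΔ, htor, hss, hyb, hj, hper⟩ := hE i
      have hfinb := h4 K (E i) hΔ
      have hbn : Pool.Agent.TH876.FH.badNorm (E i) =
          ∏ v ∈ hfinb.toFinset, (Ideal.absNorm v.asIdeal : ℝ) := by
        unfold Pool.Agent.TH876.FH.badNorm
        rw [finprod_mem_eq_finite_toFinset_prod _ hfinb]
      refine ⟨(hx i).1, ?_, ?_, ?_⟩
      · exact le_of_le_of_eq (Main_one_le _) hbn.symm
      · have hrel := (hx i).2.1
        rw [hj] at hrel
        have h7 := hc5 (j i) (x i) (hx i).1 hrel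
        have h8 := hc1 (j i) (τ i) hper
        have h9 : Pool.Agent.TH876.FH.faltings (j i) (τ i) ≤ H + g * c0 := by
          have h10 : ∑ k ∈ Finset.univ.erase i, (-c0) ≤
              ∑ k ∈ Finset.univ.erase i, Pool.Agent.TH876.FH.faltings (j k) (τ k) :=
            Finset.sum_le_sum fun k _ => hF (j k) (τ k) (hE k).2.2.2.2.2
          rw [Finset.sum_const, nsmul_eq_mul] at h10
          have h11 : ((Finset.univ.erase i).card : ℝ) ≤ g := by
            have : (Finset.univ.erase i).card ≤ g := by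
              refine (Finset.card_erase_le).trans ?_
              rw [Finset.card_univ, Fintype.card_fin]
            exact_mod_cast this
          have h12 := Finset.add_sum_erase Finset.univ
            (fun k => Pool.Agent.TH876.FH.faltings (j k) (τ k)) (Finset.mem_univ i)
          have h13 : ((Finset.univ.erase i).card : ℝ) * c0 ≤ g * c0 :=
            mul_le_mul_of_nonneg_right h11 hc00
          linarith
        have h14 : 24 * n * Pool.Agent.TH876.FH.faltings (j i) (τ i) ≤ 24 * n * (H + g * c0) :=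
          mul_le_mul_of_nonneg_left h9 (by positivity)
        have h15 := le_abs_self c1
        have h17 : g * c0 ≤ g * c0 * H := le_mul_of_one_le_right (by positivity) hH
        have h18 : |c1| ≤ |c1| * H := le_mul_of_one_le_right (abs_nonneg _) hH
        have h19 : c5 ≤ c5 * H := le_mul_of_one_le_right hc50 hH
        have h20 : 24 * n * (H + g * c0) ≤ 24 * n * ((1 + g * c0) * H) :=
          mul_le_mul_of_nonneg_left (by linarith) (by positivity)
        have h21 : C1 * H = 24 * n * ((1 + g * c0) * H) + |c1| * H + c5 * H + H := by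
          rw [hC1]
          ring
        rw [h21]
        have h22 : Height.logHeight₁ (j i) ≤
            24 * n * Pool.Agent.TH876.FH.faltings (j i) (τ i) + c1 := by
          refine h8.trans (le_of_eq ?_)
          ring
        linarith
      · by_cases hx1 : x i = 1
        · exact Or.inl hx1
        · refine Or.inr ⟨fun v hv hv6 => ((hx i).2.2 hx1 v hv6 (hss v hv)).1, hfinb.toFinset,
            le_of_eq hbn.symm, ?_, ?_⟩
          · intro v hvT hvS
            rw [Set.Finite.mem_toFinset] at hvT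
            exact hyb v hvS hvT
          · intro v hvT hvS hv6
            rw [Set.Finite.mem_toFinset] at hvT
            by_contra hcon
            exact hvT (((hx i).2.2 hx1 v hv6 (hss v hvS)).2 hcon)
    · funext i
      have h7 := (hx i).1
      have hrel := (hx i).2.1
      rw [(hE i).2.2.2.2.1] at hrel
      unfold Main_map
      rcases hrel with ⟨hm', hr⟩ | ⟨hm', hr⟩
      · rw [if_pos hm', div_eq_iff h7, hr]
      · rw [if_neg (by omega), div_eq_iff h7, hr]
  refine ⟨(hfin.image _).subset hsub, ?_⟩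
  have h6 : (Classes K m S g X y H).ncard ≤ A.ncard :=
    (Set.ncard_le_ncard hsub (hfin.image _)).trans (Set.ncard_image_le hfin)
  have h8 : (y * (1 + Real.log (C1 * H))) ^ g ≤
      (y * ((1 + Real.log C1) * (1 + Real.log H))) ^ g := by
    have e1 := Main_log hC11 hH
    have e2 : 0 ≤ Real.log (C1 * H) := Real.log_nonneg hCH
    exact pow_le_pow_left₀ (by positivity) (mul_le_mul_of_nonneg_left e1 (by positivity)) g
  calc ((Classes K m S g X y H).ncard : ℝ) ≤ (A.ncard : ℝ) := by exact_mod_cast h6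
    _ ≤ C * (y * (1 + Real.log (C1 * H))) ^ g * X ^ (((m : ℝ) + 1) / (2 * m) + ε) := hcard
    _ ≤ C * (y * ((1 + Real.log C1) * (1 + Real.log H))) ^ g *
        X ^ (((m : ℝ) + 1) / (2 * m) + ε) := by
      refine mul_le_mul_of_nonneg_right (mul_le_mul_of_nonneg_left h8 hC0) ?_
      positivity
    _ = C * (1 + Real.log C1) ^ g * y ^ g * X ^ (((m : ℝ) + 1) / (2 * m) + ε) *
        (1 + Real.log H) ^ g := by
      rw [mul_pow, mul_pow]
      ring

end Pool.Agent.TH876.TT
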