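import Mathlib
import Pool.Agent.TH876.TT.Def

set_option autoImplicit false

/-!
# The parameter of an elliptic curve with a rational point of order three
-/

namespace Pool.Agent.TH876.TT

open NumberField IsDedekindDomain

/-- The curve is `y ^ 2 + A x y + B y = x ^ 3`. -/
private theorem ParThree_shape {K : Type} [Field K] (E : WeierstrassCurve K) {x0 y0 L : K}
    (hW : y0 ^ 2 + E.a₁ * x0 * y0 + E.a₃ * y0 = x0 ^ 3 + E.a₂ * x0 ^ 2 + E.a₄ * x0 + E.a₆)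
    (hL : L * (2 * y0 + E.a₁ * x0 + E.a₃) = 3 * x0 ^ 2 + 2 * E.a₂ * x0 + E.a₄ - E.a₁ * y0)
    (hL2 : L ^ 2 + E.a₁ * L = E.a₂ + 3 * x0) :
    E.Δ = (2 * y0 + E.a₁ * x0 + E.a₃) ^ 3 *
        ((E.a₁ + 2 * L) ^ 3 - 27 * (2 * y0 + E.a₁ * x0 + E.a₃)) ∧
      E.c₄ = (E.a₁ + 2 * L) * ((E.a₁ + 2 * L) ^ 3 - 24 * (2 * y0 + E.a₁ * x0 + E.a₃)) := by
  obtain ⟨C, hC⟩ : ∃ C : WeierstrassCurve.VariableChange K, C = ⟨1, x0, L, y0⟩ := ⟨_, rfl⟩
  have h1 : (C • E).a₁ = E.a₁ + 2 * L := by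
    rw [WeierstrassCurve.variableChange_a₁, hC]
    simp
  have h2 : (C • E).a₂ = 0 := by
    rw [WeierstrassCurve.variableChange_a₂, hC]
    simp only [inv_one, Units.val_one, one_pow, one_mul]
    linear_combination -hL2
  have h3 : (C • E).a₃ = 2 * y0 + E.a₁ * x0 + E.a₃ := by
    rw [WeierstrassCurve.variableChange_a₃, hC]
    simp only [inv_one, Units.val_one, one_pow, one_mul]
    ring
  have h4 : (C • E).a₄ = 0 := by
    rw [WeierstrassCurve.variableChange_a₄, hC]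
    simp only [inv_one, Units.val_one, one_pow, one_mul]
    linear_combination -hL
  have h6 : (C • E).a₆ = 0 := by
    rw [WeierstrassCurve.variableChange_a₆, hC]
    simp only [inv_one, Units.val_one, one_pow, one_mul]
    linear_combination -hW
  have e1 : (C • E).Δ = E.Δ := by
    rw [WeierstrassCurve.variableChange_Δ, hC]
    simp
  have e2 : (C • E).c₄ = E.c₄ := by
    rw [WeierstrassCurve.variableChange_c₄, hC]
    simp
  rw [← e1, ← e2]
  constructor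
  · rw [WeierstrassCurve.Δ, WeierstrassCurve.b₂, WeierstrassCurve.b₄, WeierstrassCurve.b₆,
      WeierstrassCurve.b₈, h1, h2, h3, h4, h6]
    ring
  · rw [WeierstrassCurve.c₄, WeierstrassCurve.b₂, WeierstrassCurve.b₄, h1, h2, h3, h4]
    ring

private theorem ParThree_quad {K : Type} [Field K] (E : WeierstrassCurve K) {x0 y0 : K}
    (hW : y0 ^ 2 + E.a₁ * x0 * y0 + E.a₃ * y0 = x0 ^ 3 + E.a₂ * x0 ^ 2 + E.a₄ * x0 + E.a₆)
    (h3 : 3 * x0 ^ 4 + E.b₂ * x0 ^ 3 + 3 * E.b₄ * x0 ^ 2 + 3 * E.b₆ * x0 + E.b₈ = 0) :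
    (3 * x0 ^ 2 + 2 * E.a₂ * x0 + E.a₄ - E.a₁ * y0) ^ 2 +
      E.a₁ * (3 * x0 ^ 2 + 2 * E.a₂ * x0 + E.a₄ - E.a₁ * y0) * (2 * y0 + E.a₁ * x0 + E.a₃) =
      (E.a₂ + 3 * x0) * (2 * y0 + E.a₁ * x0 + E.a₃) ^ 2 := by
  rw [WeierstrassCurve.b₂, WeierstrassCurve.b₄, WeierstrassCurve.b₆, WeierstrassCurve.b₈] at h3
  linear_combination (-(E.a₁ ^ 2 + 4 * E.a₂ + 12 * x0)) * hW - h3

private theorem ParThree_ne {K : Type} [Field K] (E : WeierstrassCurve K) (hE : E.Δ ≠ 0)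
    {x0 y0 : K}
    (hW : y0 ^ 2 + E.a₁ * x0 * y0 + E.a₃ * y0 = x0 ^ 3 + E.a₂ * x0 ^ 2 + E.a₄ * x0 + E.a₆)
    (h3 : 3 * x0 ^ 4 + E.b₂ * x0 ^ 3 + 3 * E.b₄ * x0 ^ 2 + 3 * E.b₆ * x0 + E.b₈ = 0) :
    2 * y0 + E.a₁ * x0 + E.a₃ ≠ 0 := by
  intro hB
  have hN := ParThree_quad E hW h3
  rw [hB, mul_zero, add_zero, sq (0 : K), mul_zero, mul_zero] at hN
  have hN' := pow_eq_zero_iff (two_ne_zero) |>.1 hN
  obtain ⟨C, hC⟩ : ∃ C : WeierstrassCurve.VariableChange K, C = ⟨1, x0, 0, y0⟩ := ⟨_, rfl⟩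
  have h3 : (C • E).a₃ = 0 := by
    rw [WeierstrassCurve.variableChange_a₃, hC]
    simp only [inv_one, Units.val_one, one_pow, one_mul]
    linear_combination hB
  have h4 : (C • E).a₄ = 0 := by
    rw [WeierstrassCurve.variableChange_a₄, hC]
    simp only [inv_one, Units.val_one, one_pow, one_mul]
    linear_combination hN'
  have h6 : (C • E).a₆ = 0 := by
    rw [WeierstrassCurve.variableChange_a₆, hC]
    simp only [inv_one, Units.val_one, one_pow, one_mul]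
    linear_combination -hW
  have e1 : (C • E).Δ = E.Δ := by
    rw [WeierstrassCurve.variableChange_Δ, hC]
    simp
  apply hE
  rw [← e1, WeierstrassCurve.Δ, WeierstrassCurve.b₂, WeierstrassCurve.b₄, WeierstrassCurve.b₆,
      WeierstrassCurve.b₈, h3, h4, h6]
  ring

/-- The change of variables. -/
private theorem ParThree_change {K : Type} [Field K] (E : WeierstrassCurve K)
    (C : WeierstrassCurve.VariableChange K) {x0 y0 L x1 y1 M w : K}
    (hw : w = ((C.u⁻¹ : Kˣ) : K)) (hx1 : x1 = w ^ 2 * (x0 - C.r))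
    (hy1 : y1 = w ^ 3 * (y0 - C.t - C.s * (x0 - C.r))) (hM : M = w * (L - C.s))
    (hW : y0 ^ 2 + E.a₁ * x0 * y0 + E.a₃ * y0 = x0 ^ 3 + E.a₂ * x0 ^ 2 + E.a₄ * x0 + E.a₆)
    (h3 : 3 * x0 ^ 4 + E.b₂ * x0 ^ 3 + 3 * E.b₄ * x0 ^ 2 + 3 * E.b₆ * x0 + E.b₈ = 0)
    (hL : L * (2 * y0 + E.a₁ * x0 + E.a₃) = 3 * x0 ^ 2 + 2 * E.a₂ * x0 + E.a₄ - E.a₁ * y0)
    (hL2 : L ^ 2 + E.a₁ * L = E.a₂ + 3 * x0) :
    y1 ^ 2 + (C • E).a₁ * x1 * y1 + (C • E).a₃ * y1 =
      x1 ^ 3 + (C • E).a₂ * x1 ^ 2 + (C • E).a₄ * x1 + (C • E).a₆ ∧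
    3 * x1 ^ 4 + (C • E).b₂ * x1 ^ 3 + 3 * (C • E).b₄ * x1 ^ 2 + 3 * (C • E).b₆ * x1 +
      (C • E).b₈ = 0 ∧
    M * (2 * y1 + (C • E).a₁ * x1 + (C • E).a₃) =
      3 * x1 ^ 2 + 2 * (C • E).a₂ * x1 + (C • E).a₄ - (C • E).a₁ * y1 ∧
    M ^ 2 + (C • E).a₁ * M = (C • E).a₂ + 3 * x1 ∧
    2 * y1 + (C • E).a₁ * x1 + (C • E).a₃ = w ^ 3 * (2 * y0 + E.a₁ * x0 + E.a₃) ∧
    (C • E).a₁ + 2 * M = w * (E.a₁ + 2 * L) := by
  rw [WeierstrassCurve.variableChange_b₂, WeierstrassCurve.variableChange_b₄,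
    WeierstrassCurve.variableChange_b₆, WeierstrassCurve.variableChange_b₈,
    WeierstrassCurve.variableChange_a₁, WeierstrassCurve.variableChange_a₂,
    WeierstrassCurve.variableChange_a₃, WeierstrassCurve.variableChange_a₄,
    WeierstrassCurve.variableChange_a₆, ← hw, hx1, hy1, hM]
  refine ⟨?_, ?_, ?_, ?_, ?_, ?_⟩
  · linear_combination w ^ 6 * hW
  · linear_combination w ^ 8 * h3
  · linear_combination w ^ 4 * hL
  · linear_combination w ^ 2 * hL2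
  · ring
  · ring

section val

variable {K : Type} [Field K] {Γ : Type} [LinearOrderedCommGroupWithZero Γ] (v : Valuation K Γ)

private theorem ParThree_nat (n : ℕ) : v (n : K) ≤ 1 := by
  induction n with
  | zero => simp
  | succ n ih =>
    push_cast
    exact (v.map_add _ _).trans (max_le ih (by simp))

private theorem ParThree_three (h : v 6 = 1) : v 3 = 1 := by
  have h2 : v 2 ≤ 1 := by exact_mod_cast ParThree_nat v 2
  have h3 : v 3 ≤ 1 := by exact_mod_cast ParThree_nat v 3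
  refine le_antisymm h3 ?_
  have e : v 6 = v 2 * v 3 := by rw [← map_mul]; norm_num
  rw [h] at e
  rw [e]
  exact mul_le_of_le_one_left' h2

private theorem ParThree_int {t a b c d x : K} (ht : v t = 1) (ha : v a ≤ 1) (hb : v b ≤ 1)
    (hc : v c ≤ 1) (hd : v d ≤ 1) (h : t * x ^ 4 + a * x ^ 3 + b * x ^ 2 + c * x + d = 0) :
    v x ≤ 1 := by
  by_contra hx
  rw [not_le] at hx
  have e1 : t * x ^ 4 = -(a * x ^ 3 + b * x ^ 2 + c * x + d) := by linear_combination h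
  have e2 : v (t * x ^ 4) = v x ^ 4 := by rw [map_mul, ht, one_mul, map_pow]
  have e3 : v (a * x ^ 3 + b * x ^ 2 + c * x + d) ≤ v x ^ 3 := by
    refine (v.map_add _ _).trans (max_le ((v.map_add _ _).trans (max_le
      ((v.map_add _ _).trans (max_le ?_ ?_)) ?_)) ?_)
    · rw [map_mul, map_pow]
      exact mul_le_of_le_one_left' ha
    · rw [map_mul, map_pow]
      exact (mul_le_of_le_one_left' hb).trans (pow_le_pow_right₀ hx.le (by norm_num))
    · rw [map_mul]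
      refine (mul_le_of_le_one_left' hc).trans ?_
      calc v x = v x ^ 1 := (pow_one _).symm
        _ ≤ v x ^ 3 := pow_le_pow_right₀ hx.le (by norm_num)
    · exact hd.trans (one_le_pow₀ hx.le)
  rw [← v.map_neg, ← e1, e2] at e3
  have e4 : v x ^ 3 < v x ^ 4 := pow_lt_pow_right₀ hx (by norm_num)
  exact absurd e3 (not_le.2 e4)

private theorem ParThree_one {a b : Γ} (n : ℕ) (ha : a ≤ 1) (hb : b ≤ 1)
    (h : a ^ (n + 1) * b = 1) : a = 1 ∧ b = 1 := by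
  have h1 : a = 1 := by
    refine le_antisymm ha (not_lt.1 fun hl => ?_)
    have h2 : a ^ (n + 1) * b ≤ a ^ (n + 1) := mul_le_of_le_one_right' hb
    have h3 : a ^ (n + 1) < 1 := pow_lt_one₀ zero_le hl (Nat.succ_ne_zero n)
    rw [h] at h2
    exact absurd h3 (not_lt.2 h2)
  refine ⟨h1, ?_⟩
  rw [h1, one_pow, one_mul] at h
  exact h

end val

/-- The local statement at an integral model. -/
private theorem ParThree_local {K : Type} [Field K] [NumberField K] (E : WeierstrassCurve K)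
    (hE : E.Δ ≠ 0) {x0 y0 L : K}
    (hW : y0 ^ 2 + E.a₁ * x0 * y0 + E.a₃ * y0 = x0 ^ 3 + E.a₂ * x0 ^ 2 + E.a₄ * x0 + E.a₆)
    (h3 : 3 * x0 ^ 4 + E.b₂ * x0 ^ 3 + 3 * E.b₄ * x0 ^ 2 + 3 * E.b₆ * x0 + E.b₈ = 0)
    (hL : L * (2 * y0 + E.a₁ * x0 + E.a₃) = 3 * x0 ^ 2 + 2 * E.a₂ * x0 + E.a₄ - E.a₁ * y0)
    (hL2 : L ^ 2 + E.a₁ * L = E.a₂ + 3 * x0)
    (w : HeightOneSpectrum (𝓞 K)) (hw6 : w.valuation K (6 : K) = 1)
    (C : WeierstrassCurve.VariableChange K)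
    (ha1 : w.valuation K (C • E).a₁ ≤ 1) (ha2 : w.valuation K (C • E).a₂ ≤ 1)
    (ha3 : w.valuation K (C • E).a₃ ≤ 1) (ha4 : w.valuation K (C • E).a₄ ≤ 1)
    (ha6 : w.valuation K (C • E).a₆ ≤ 1) :
    ∃ A B : K, w.valuation K A ≤ 1 ∧ w.valuation K B ≤ 1 ∧ B ≠ 0 ∧
      (C • E).Δ = B ^ 3 * (A ^ 3 - 27 * B) ∧ (C • E).c₄ = A * (A ^ 3 - 24 * B) ∧
      A ^ 3 * (2 * y0 + E.a₁ * x0 + E.a₃) = (E.a₁ + 2 * L) ^ 3 * B := by
  obtain ⟨v, hv⟩ : ∃ v, v = w.valuation K := ⟨_, rfl⟩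
  rw [← hv] at ha1 ha2 ha3 ha4 ha6 hw6 ⊢
  have hB0 := ParThree_ne E hE hW h3
  obtain ⟨W, x1, y1, M, hw, hx1, hy1, hM⟩ : ∃ W x1 y1 M : K, W = ((C.u⁻¹ : Kˣ) : K) ∧
      x1 = W ^ 2 * (x0 - C.r) ∧ y1 = W ^ 3 * (y0 - C.t - C.s * (x0 - C.r)) ∧
      M = W * (L - C.s) := ⟨_, _, _, _, rfl, rfl, rfl, rfl⟩
  obtain ⟨gW, g3, gL, gL2, gB, gA⟩ := ParThree_change E C hw hx1 hy1 hM hW h3 hL hL2
  obtain ⟨hΔ, hc4⟩ := ParThree_shape (C • E) gW gL gL2
  have v3 : v 3 = 1 := ParThree_three v hw6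
  have hW0 : W ≠ 0 := by rw [hw]; exact Units.ne_zero _
  obtain ⟨a1, h1⟩ : ∃ a, a = (C • E).a₁ := ⟨_, rfl⟩
  obtain ⟨a2, h2⟩ : ∃ a, a = (C • E).a₂ := ⟨_, rfl⟩
  obtain ⟨a3, h3'⟩ : ∃ a, a = (C • E).a₃ := ⟨_, rfl⟩
  obtain ⟨a4, h4⟩ : ∃ a, a = (C • E).a₄ := ⟨_, rfl⟩
  obtain ⟨a6, h6⟩ : ∃ a, a = (C • E).a₆ := ⟨_, rfl⟩
  rw [WeierstrassCurve.b₂, WeierstrassCurve.b₄, WeierstrassCurve.b₆, WeierstrassCurve.b₈,
    ← h1, ← h2, ← h3', ← h4, ← h6] at g3
  rw [← h1, ← h2, ← h3', ← h4, ← h6] at gW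
  rw [← h1, ← h2] at gL2
  rw [← h1, ← h3'] at gB hΔ hc4
  rw [← h1] at gA ha1
  rw [← h2] at ha2
  rw [← h3'] at ha3
  rw [← h4] at ha4
  rw [← h6] at ha6
  have m1 : a1 ∈ v.integer := ha1
  have m2 : a2 ∈ v.integer := ha2
  have m3 : a3 ∈ v.integer := ha3
  have m4 : a4 ∈ v.integer := ha4
  have m6 : a6 ∈ v.integer := ha6
  have n2 : (2 : K) ∈ v.integer := by exact_mod_cast natCast_mem v.integer 2
  have n3 : (3 : K) ∈ v.integer := by exact_mod_cast natCast_mem v.integer 3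
  have n4 : (4 : K) ∈ v.integer := by exact_mod_cast natCast_mem v.integer 4
  have i2 : a1 ^ 2 + 4 * a2 ∈ v.integer := add_mem (pow_mem m1 2) (mul_mem n4 m2)
  have i4 : 2 * a4 + a1 * a3 ∈ v.integer := add_mem (mul_mem n2 m4) (mul_mem m1 m3)
  have i6 : a3 ^ 2 + 4 * a6 ∈ v.integer := add_mem (pow_mem m3 2) (mul_mem n4 m6)
  have i8 : a1 ^ 2 * a6 + 4 * a2 * a6 - a1 * a3 * a4 + a2 * a3 ^ 2 - a4 ^ 2 ∈ v.integer :=
    sub_mem (add_mem (sub_mem (add_mem (mul_mem (pow_mem m1 2) m6)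
      (mul_mem (mul_mem n4 m2) m6)) (mul_mem (mul_mem m1 m3) m4)) (mul_mem m2 (pow_mem m3 2)))
      (pow_mem m4 2)
  have mx : x1 ∈ v.integer := ParThree_int v (t := 3) v3 i2 (mul_mem n3 i4) (mul_mem n3 i6) i8 g3
  have my : y1 ∈ v.integer := by
    refine ParThree_int v (t := 1) (a := a1 * x1 + a3)
      (b := -(x1 ^ 3 + a2 * x1 ^ 2 + a4 * x1 + a6)) (c := 0) (d := 0) v.map_one
      (add_mem (mul_mem m1 mx) m3) ?_ (by simp) (by simp) ?_
    · exact neg_mem (add_mem (add_mem (add_mem (pow_mem mx 3) (mul_mem m2 (pow_mem mx 2)))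
        (mul_mem m4 mx)) m6)
    · linear_combination y1 ^ 2 * gW
  have mM : M ∈ v.integer := by
    refine ParThree_int v (t := 1) (a := a1) (b := -(a2 + 3 * x1)) (c := 0) (d := 0) v.map_one
      m1 ?_ (by simp) (by simp) ?_
    · exact neg_mem (add_mem m2 (mul_mem n3 mx))
    · linear_combination M ^ 2 * gL2
  refine ⟨a1 + 2 * M, 2 * y1 + a1 * x1 + a3, add_mem m1 (mul_mem n2 mM),
    add_mem (add_mem (mul_mem n2 my) (mul_mem m1 mx)) m3, ?_, hΔ, hc4, ?_⟩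
  · rw [gB]
    exact mul_ne_zero (pow_ne_zero _ hW0) hB0
  · rw [gB, gA]
    ring

private theorem ParThree_exp {x : WithZero (Multiplicative ℤ)} (h0 : x ≠ 0) (h1 : x ≤ 1) :
    ∃ k : ℕ, x ^ 3 = WithZero.exp (-((3 * k : ℕ) : ℤ)) := by
  have h2 : WithZero.log x ≤ 0 := by
    rw [← WithZero.log_one (M := ℤ)]
    exact (WithZero.log_le_log h0 one_ne_zero).2 h1
  refine ⟨(-WithZero.log x).toNat, ?_⟩
  have h3 : -((3 * (-WithZero.log x).toNat : ℕ) : ℤ) = 3 • WithZero.log x := by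
    rw [Nat.cast_mul, Int.toNat_of_nonneg (by omega), nsmul_eq_mul]
    push_cast
    ring
  rw [h3, WithZero.exp_nsmul, WithZero.exp_log h0]

theorem parThree : ParThreeS := by
  intro K _ _ E hE hT
  rcases hT with ⟨h, -⟩ | ⟨-, x0, y0, hW, h3⟩
  · exact absurd h (by norm_num)
  have hB0 := ParThree_ne E hE hW h3
  have hq := ParThree_quad E hW h3
  obtain ⟨L, hLd⟩ : ∃ L : K, L = (3 * x0 ^ 2 + 2 * E.a₂ * x0 + E.a₄ - E.a₁ * y0) /
    (2 * y0 + E.a₁ * x0 + E.a₃) := ⟨_, rfl⟩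
  have hL : L * (2 * y0 + E.a₁ * x0 + E.a₃) =
      3 * x0 ^ 2 + 2 * E.a₂ * x0 + E.a₄ - E.a₁ * y0 := by
    rw [hLd, div_mul_cancel₀ _ hB0]
  have hL2 : L ^ 2 + E.a₁ * L = E.a₂ + 3 * x0 := by
    apply mul_right_cancel₀ (pow_ne_zero 2 hB0)
    rw [← hq, ← hL]
    ring
  obtain ⟨hΔ, hc4⟩ := ParThree_shape E hW hL hL2
  have hloc := fun w hw C => ParThree_local E hE hW h3 hL hL2 w hw C
  obtain ⟨B, hB⟩ : ∃ B, B = 2 * y0 + E.a₁ * x0 + E.a₃ := ⟨_, rfl⟩
  obtain ⟨A, hA⟩ : ∃ A, A = E.a₁ + 2 * L := ⟨_, rfl⟩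
  rw [← hB] at hB0 hΔ hc4 hloc
  rw [← hA] at hΔ hc4 hloc
  have hD0 : A ^ 3 - 27 * B ≠ 0 := by
    intro h
    rw [hΔ, h, mul_zero] at hE
    exact hE rfl
  have h27 : (27 : K) ≠ 0 := by norm_num
  have h27B : 27 * B ≠ 0 := mul_ne_zero h27 hB0
  refine ⟨(27 * B - A ^ 3) / (27 * B), ?_, Or.inr ⟨rfl, ?_⟩, ?_⟩
  · refine div_ne_zero (fun h => hD0 ?_) h27B
    linear_combination -h
  · obtain ⟨D, hD⟩ : ∃ D, D = A ^ 3 - 27 * B := ⟨_, rfl⟩
    have e1 : A ^ 3 = D + 27 * B := by rw [hD]; ring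
    rw [← hD] at hD0
    rw [hΔ, hc4, mul_pow, e1, show D + 27 * B - 27 * B = D by ring,
      show D + 27 * B - 24 * B = D + 3 * B by ring, show 27 * B - (D + 27 * B) = -D by ring]
    field_simp
    ring
  · intro hx1 v h6 hss
    have v3 := ParThree_three (v.valuation K) h6
    have v27 : v.valuation K 27 = 1 := by
      have e : (27 : K) = 3 ^ 3 := by norm_num
      rw [e, map_pow, v3, one_pow]
    have n24 : v.valuation K 24 ≤ 1 := by exact_mod_cast ParThree_nat (v.valuation K) 24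
    have hA0 : A ≠ 0 := by
      intro h
      apply hx1
      rw [h]
      field_simp
      ring
    -- the values in terms of a model
    have key : ∀ A' B' : K, B' ≠ 0 → A' ^ 3 * B = A ^ 3 * B' →
        v.valuation K ((27 * B - A ^ 3) / (27 * B)) =
          v.valuation K (27 * B' - A' ^ 3) / v.valuation K B' ∧
        v.valuation K ((27 * B - A ^ 3) / (27 * B) - 1) =
          v.valuation K A' ^ 3 / v.valuation K B' ∧ A' ≠ 0 := by
      intro A' B' hB' hAB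
      have e1 : (27 * B - A ^ 3) / (27 * B) = (27 * B' - A' ^ 3) / (27 * B') := by
        rw [div_eq_div_iff h27B (mul_ne_zero h27 hB')]
        linear_combination 27 * hAB
      have e2 : (27 * B' - A' ^ 3) / (27 * B') - 1 = -(A' ^ 3 / (27 * B')) := by
        field_simp
        ring
      refine ⟨?_, ?_, ?_⟩
      · rw [e1, map_div₀, map_mul, v27, one_mul]
      · rw [e1, e2, Valuation.map_neg, map_div₀, map_mul, v27, one_mul, map_pow]
      · intro h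
        rw [h] at hAB
        have h5 : A ^ 3 * B' = 0 := by rw [← hAB]; ring
        exact mul_ne_zero (pow_ne_zero 3 hA0) hB' h5
    -- integral models with unit discriminant
    have good : ∀ A' B' : K, v.valuation K A' ≤ 1 → v.valuation K B' ≤ 1 →
        v.valuation K (B' ^ 3 * (A' ^ 3 - 27 * B')) = 1 →
        v.valuation K B' = 1 ∧ v.valuation K (27 * B' - A' ^ 3) = 1 := by
      intro A' B' hA' hB' h
      rw [map_mul, map_pow] at h
      have h5 : v.valuation K (A' ^ 3 - 27 * B') ≤ 1 := by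
        refine ((v.valuation K).map_sub _ _).trans (max_le ?_ ?_)
        · rw [map_pow]
          exact pow_le_one' hA' 3
        · rw [map_mul, v27, one_mul]
          exact hB'
      obtain ⟨h6, h7⟩ := ParThree_one 2 hB' h5 h
      refine ⟨h6, ?_⟩
      rw [← neg_sub, Valuation.map_neg]
      exact h7
    constructor
    · obtain ⟨C, ha1, ha2, ha3, ha4, ha6, hor⟩ := hss
      obtain ⟨A', B', hA', hB', hB0', hΔ', hc4', hAB⟩ := hloc v h6 C ha1 ha2 ha3 ha4 ha6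
      obtain ⟨k1, k2, k3⟩ := key A' B' hB0' hAB
      rcases hor with hor | hor
      · rw [hΔ'] at hor
        obtain ⟨g1, g2⟩ := good A' B' hA' hB' hor
        obtain ⟨k, hk⟩ := ParThree_exp ((Valuation.ne_zero_iff _).2 k3) hA'
        refine ⟨k, ?_⟩
        rw [k2, k1, g1, g2, div_one, div_one, max_self, one_mul, hk]
      · rw [hc4', map_mul] at hor
        have h5 : v.valuation K (A' ^ 3 - 24 * B') ≤ 1 := by
          refine ((v.valuation K).map_sub _ _).trans (max_le ?_ ?_)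
          · rw [map_pow]
            exact pow_le_one' hA' 3
          · rw [map_mul]
            exact mul_le_one' n24 hB'
        obtain ⟨g1, -⟩ := ParThree_one 0 hA' h5 (by rw [pow_one]; exact hor)
        rw [g1, one_pow] at k2
        have vB0 : v.valuation K B' ≠ 0 := (Valuation.ne_zero_iff _).2 hB0'
        refine ⟨0, ?_⟩
        rw [mul_zero, Nat.cast_zero, neg_zero, WithZero.exp_zero, mul_one]
        refine le_antisymm ?_ ?_
        · refine ((v.valuation K).map_sub _ _).trans (max_le_max le_rfl ?_)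
          rw [map_one]
        · rw [k2, k1]
          refine max_le ?_ ?_
          · rw [div_eq_mul_inv, div_eq_mul_inv]
            refine mul_le_mul_left ?_ _
            refine ((v.valuation K).map_sub _ _).trans (max_le ?_ ?_)
            · rw [map_mul, v27, one_mul]
              exact hB'
            · rw [map_pow]
              exact pow_le_one' hA' 3
          · rw [one_div]
            exact (one_le_inv₀ (zero_lt_iff.2 vB0)).2 hB'
    · intro hne hg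
      obtain ⟨C, ha1, ha2, ha3, ha4, ha6, hor⟩ := hg
      obtain ⟨A', B', hA', hB', hB0', hΔ', hc4', hAB⟩ := hloc v h6 C ha1 ha2 ha3 ha4 ha6
      obtain ⟨k1, k2, k3⟩ := key A' B' hB0' hAB
      rw [hΔ'] at hor
      obtain ⟨g1, g2⟩ := good A' B' hA' hB' hor
      apply hne
      rw [k1, g1, g2, div_one]

end Pool.Agent.TH876.TT
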