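import Mathlib
import Pool.Agent.TH876.TT.Def

set_option autoImplicit false

/-!
# The parameter of an elliptic curve with a rational point of order two
-/

namespace Pool.Agent.TH876.TT

open NumberField IsDedekindDomain
open Pool.Agent.TH876.FH (GoodAt)

private theorem ParTwo_disc {K : Type} [Field K] [CharZero K] (E : WeierstrassCurve K) {e a b : K}
    (h : 4 * e ^ 3 + E.b₂ * e ^ 2 + 2 * E.b₄ * e + E.b₆ = 0)
    (ha : 4 * a = E.b₂ + 12 * e) (hb : 2 * b = 6 * e ^ 2 + E.b₂ * e + E.b₄) :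
    E.Δ = 16 * b ^ 2 * (a ^ 2 - 4 * b) ∧ E.c₄ = 16 * (a ^ 2 - 3 * b) := by
  have k2 : E.b₂ = 4 * a - 12 * e := by linear_combination -ha
  have k4 : E.b₄ = 2 * b + 6 * e ^ 2 - 4 * a * e := by linear_combination -hb - e * k2
  have k6 : E.b₆ = -4 * e ^ 3 + 4 * a * e ^ 2 - 4 * b * e := by
    linear_combination h - e ^ 2 * k2 - 2 * e * k4
  have hr := E.b_relation
  constructor
  · have h : (4 : K) ≠ 0 := by norm_num
    apply mul_left_cancel₀ h
    rw [WeierstrassCurve.Δ]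
    rw [k2, k4, k6] at hr ⊢
    linear_combination (-(4 * a - 12 * e) ^ 2) * hr
  · rw [WeierstrassCurve.c₄, k2, k4]
    ring

private theorem ParTwo_root {K : Type} [Field K] (E : WeierstrassCurve K)
    (C : WeierstrassCurve.VariableChange K) {e : K}
    (h : 4 * e ^ 3 + E.b₂ * e ^ 2 + 2 * E.b₄ * e + E.b₆ = 0) :
    4 * ((C.u⁻¹ : Kˣ) ^ 2 * (e - C.r)) ^ 3 + (C • E).b₂ * ((C.u⁻¹ : Kˣ) ^ 2 * (e - C.r)) ^ 2 +
      2 * (C • E).b₄ * ((C.u⁻¹ : Kˣ) ^ 2 * (e - C.r)) + (C • E).b₆ = 0 := by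
  rw [WeierstrassCurve.variableChange_b₂, WeierstrassCurve.variableChange_b₄,
    WeierstrassCurve.variableChange_b₆]
  linear_combination ((C.u⁻¹ : Kˣ) : K) ^ 6 * h

private theorem ParTwo_change {K : Type} [Field K] (E : WeierstrassCurve K)
    (C : WeierstrassCurve.VariableChange K) {e a b : K}
    (ha : 4 * a = E.b₂ + 12 * e) (hb : 2 * b = 6 * e ^ 2 + E.b₂ * e + E.b₄) :
    4 * (((C.u⁻¹ : Kˣ) : K) ^ 2 * a) = (C • E).b₂ + 12 * ((C.u⁻¹ : Kˣ) ^ 2 * (e - C.r)) ∧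
    2 * (((C.u⁻¹ : Kˣ) : K) ^ 4 * b) = 6 * ((C.u⁻¹ : Kˣ) ^ 2 * (e - C.r)) ^ 2 +
      (C • E).b₂ * ((C.u⁻¹ : Kˣ) ^ 2 * (e - C.r)) + (C • E).b₄ := by
  rw [WeierstrassCurve.variableChange_b₂, WeierstrassCurve.variableChange_b₄]
  constructor
  · linear_combination ((C.u⁻¹ : Kˣ) : K) ^ 2 * ha
  · linear_combination ((C.u⁻¹ : Kˣ) : K) ^ 4 * hb

private theorem ParTwo_j {K : Type} [Field K] (E : WeierstrassCurve K)
    (C : WeierstrassCurve.VariableChange K) :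
    (C • E).c₄ ^ 3 / (C • E).Δ = E.c₄ ^ 3 / E.Δ := by
  rw [WeierstrassCurve.variableChange_c₄, WeierstrassCurve.variableChange_Δ]
  have hu : ((C.u⁻¹ : Kˣ) : K) ^ 12 ≠ 0 := pow_ne_zero _ (Units.ne_zero _)
  rw [← mul_div_mul_left (E.c₄ ^ 3) E.Δ hu]
  congr 1
  ring

section val

variable {K : Type} [Field K] {Γ : Type} [LinearOrderedCommGroupWithZero Γ] (v : Valuation K Γ)

private theorem ParTwo_nat (n : ℕ) : v (n : K) ≤ 1 := by
  induction n with
  | zero => simp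
  | succ n ih =>
    push_cast
    exact (v.map_add _ _).trans (max_le ih (by simp))

private theorem ParTwo_four (h2 : v 2 = 1) : v 4 = 1 := by
  have : (4 : K) = 2 ^ 2 := by norm_num
  rw [this, map_pow, h2, one_pow]

private theorem ParTwo_sixteen (h2 : v 2 = 1) : v 16 = 1 := by
  have : (16 : K) = 2 ^ 4 := by norm_num
  rw [this, map_pow, h2, one_pow]

private theorem ParTwo_int {b2 b4 b6 e : K} (h2 : v 2 = 1) (k2 : v b2 ≤ 1) (k4 : v b4 ≤ 1)
    (k6 : v b6 ≤ 1) (h : 4 * e ^ 3 + b2 * e ^ 2 + 2 * b4 * e + b6 = 0) : v e ≤ 1 := by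
  by_contra hc
  rw [not_le] at hc
  have h4 : v 4 = 1 := ParTwo_four v h2
  have e1 : 4 * e ^ 3 = -(b2 * e ^ 2 + 2 * b4 * e + b6) := by linear_combination h
  have e2 : v (4 * e ^ 3) = v e ^ 3 := by rw [map_mul, h4, one_mul, map_pow]
  have e3 : v (b2 * e ^ 2 + 2 * b4 * e + b6) ≤ v e ^ 2 := by
    refine (v.map_add _ _).trans (max_le ((v.map_add _ _).trans (max_le ?_ ?_)) ?_)
    · rw [map_mul, map_pow]
      exact mul_le_of_le_one_left' k2
    · rw [map_mul, map_mul, h2, one_mul]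
      calc v b4 * v e ≤ 1 * v e := mul_le_mul_left k4 _
        _ = v e := one_mul _
        _ ≤ v e ^ 2 := by
          rw [sq]
          exact le_mul_of_one_le_left' hc.le
    · exact k6.trans (one_le_pow₀ hc.le)
  rw [← v.map_neg, ← e1, e2] at e3
  have e4 : v e ^ 2 < v e ^ 3 := pow_lt_pow_right₀ hc (by norm_num)
  exact absurd e3 (not_le.2 e4)

private theorem ParTwo_quot {a b : K} (h2 : v 2 = 1) (x : K) (hx : x = -(a ^ 2 - 4 * b) / (4 * b)) :
    v x = v (a ^ 2 - 4 * b) / v b := by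
  rw [hx, map_div₀, Valuation.map_neg, map_mul, ParTwo_four v h2, one_mul]

private theorem ParTwo_quot1 {a b : K} (h2 : v 2 = 1) (hb : b ≠ 0) (h4 : (4 : K) ≠ 0) (x : K)
    (hx : x = -(a ^ 2 - 4 * b) / (4 * b)) : v (x - 1) = v a ^ 2 / v b := by
  have : x - 1 = -(a ^ 2) / (4 * b) := by
    rw [hx]
    field_simp
    ring
  rw [this, map_div₀, Valuation.map_neg, map_mul, ParTwo_four v h2, one_mul, map_pow]

/-- good reduction -/
private theorem ParTwo_good {a b : K} (h2 : v 2 = 1) (ia : v a ≤ 1) (ib : v b ≤ 1)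
    (h : v (16 * b ^ 2 * (a ^ 2 - 4 * b)) = 1) : v b = 1 ∧ v (a ^ 2 - 4 * b) = 1 := by
  rw [map_mul, map_mul, ParTwo_sixteen v h2, one_mul, map_pow] at h
  have ic : v (a ^ 2 - 4 * b) ≤ 1 := by
    refine (v.map_sub _ _).trans (max_le ?_ ?_)
    · rw [map_pow]
      exact pow_le_one' ia 2
    · rw [map_mul, ParTwo_four v h2, one_mul]
      exact ib
  have h1 : v b = 1 := by
    refine le_antisymm ib (not_lt.1 fun hl => ?_)
    have h3 : v b ^ 2 < 1 := pow_lt_one₀ zero_le hl (by norm_num)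
    have h4 : v b ^ 2 * v (a ^ 2 - 4 * b) ≤ v b ^ 2 := mul_le_of_le_one_right' ic
    rw [h] at h4
    exact absurd h3 (not_lt.2 h4)
  refine ⟨h1, ?_⟩
  rwa [h1, one_pow, one_mul] at h

private theorem ParTwo_bad {a b : K} (h2 : v 2 = 1) (ia : v a ≤ 1) (ib : v b ≤ 1) (hb : b ≠ 0)
    (h4 : (4 : K) ≠ 0) (h : v (16 * b ^ 2 * (a ^ 2 - 4 * b)) ≠ 1) (hc : v (16 * (a ^ 2 - 3 * b)) = 1)
    (x : K) (hx : x = -(a ^ 2 - 4 * b) / (4 * b)) : v (x - 1) = max (v x) 1 := by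
  rw [map_mul, ParTwo_sixteen v h2, one_mul] at hc
  have ha0 : v a ≠ 1 → v a < 1 := fun h => lt_of_le_of_ne ia h
  have i3 : v (3 : K) ≤ 1 := by
    have := ParTwo_nat v 3
    exact_mod_cast this
  rw [ParTwo_quot1 v h2 hb h4 x hx, ParTwo_quot v h2 x hx]
  have hb0 : v b ≠ 0 := (Valuation.ne_zero_iff _).2 hb
  by_cases hb1 : v b = 1
  · -- the second factor
    have h5 : v (a ^ 2 - 4 * b) < 1 := by
      refine lt_of_le_of_ne ?_ fun h6 => h ?_
      · refine (v.map_sub _ _).trans (max_le ?_ ?_)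
        · rw [map_pow]
          exact pow_le_one' ia 2
        · rw [map_mul, ParTwo_four v h2, one_mul]
          exact ib
      · rw [map_mul, map_mul, ParTwo_sixteen v h2, one_mul, map_pow, hb1, h6, one_pow, one_mul]
    have h6 : v (a ^ 2) = 1 := by
      have e : a ^ 2 = (a ^ 2 - 4 * b) + 4 * b := by ring
      have h7 : v (a ^ 2 - 4 * b) < v (4 * b) := by
        rw [map_mul, ParTwo_four v h2, hb1, one_mul]
        exact h5
      rw [e, Valuation.map_add_eq_of_lt_right v h7, map_mul, ParTwo_four v h2, hb1, one_mul]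
    rw [map_pow] at h6
    rw [h6, hb1, div_one, div_one, max_eq_right h5.le]
  · have hb2 : v b < 1 := lt_of_le_of_ne ib hb1
    have h6 : v (a ^ 2) = 1 := by
      have e : a ^ 2 = (a ^ 2 - 3 * b) + 3 * b := by ring
      have h7 : v (3 * b) < v (a ^ 2 - 3 * b) := by
        rw [hc, map_mul]
        exact lt_of_le_of_lt (mul_le_of_le_one_left' i3) hb2
      rw [e, Valuation.map_add_eq_of_lt_left v h7, hc]
    have h8 : v (a ^ 2 - 4 * b) = 1 := by
      have h7 : v (4 * b) < v (a ^ 2) := by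
        rw [h6, map_mul, ParTwo_four v h2, one_mul]
        exact hb2
      rw [Valuation.map_sub_eq_of_lt_left v h7, h6]
    rw [map_pow] at h6
    rw [h6, h8, max_eq_left]
    rw [one_div]
    exact (one_le_inv₀ (zero_lt_iff.2 hb0)).2 ib

end val

private theorem ParTwo_b {K : Type} [Field K] {Γ : Type} [LinearOrderedCommGroupWithZero Γ]
    (v : Valuation K Γ) (h2 : v 2 = 1) (E : WeierstrassCurve K) (ha1 : v E.a₁ ≤ 1)
    (ha2 : v E.a₂ ≤ 1) (ha3 : v E.a₃ ≤ 1) (ha4 : v E.a₄ ≤ 1) (ha6 : v E.a₆ ≤ 1) :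
    v E.b₂ ≤ 1 ∧ v E.b₄ ≤ 1 ∧ v E.b₆ ≤ 1 := by
  have v4 : v 4 ≤ 1 := (ParTwo_four v h2).le
  refine ⟨?_, ?_, ?_⟩
  · rw [WeierstrassCurve.b₂]
    refine (v.map_add _ _).trans (max_le ?_ ?_)
    · rw [map_pow]
      exact pow_le_one' ha1 2
    · rw [map_mul]
      exact mul_le_one' v4 ha2
  · rw [WeierstrassCurve.b₄]
    refine (v.map_add _ _).trans (max_le ?_ ?_)
    · rw [map_mul]
      exact mul_le_one' h2.le ha4
    · rw [map_mul]
      exact mul_le_one' ha1 ha3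
  · rw [WeierstrassCurve.b₆]
    refine (v.map_add _ _).trans (max_le ?_ ?_)
    · rw [map_pow]
      exact pow_le_one' ha3 2
    · rw [map_mul]
      exact mul_le_one' v4 ha6

/-- the parameters of an integral model -/
private theorem ParTwo_model {K : Type} [Field K] [CharZero K] {Γ : Type}
    [LinearOrderedCommGroupWithZero Γ] (v : Valuation K Γ) (h2 : v 2 = 1) (E : WeierstrassCurve K)
    (ha1 : v E.a₁ ≤ 1) (ha2 : v E.a₂ ≤ 1) (ha3 : v E.a₃ ≤ 1) (ha4 : v E.a₄ ≤ 1) (ha6 : v E.a₆ ≤ 1)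
    {e a b : K} (h : 4 * e ^ 3 + E.b₂ * e ^ 2 + 2 * E.b₄ * e + E.b₆ = 0)
    (ha : 4 * a = E.b₂ + 12 * e) (hb : 2 * b = 6 * e ^ 2 + E.b₂ * e + E.b₄) :
    v a ≤ 1 ∧ v b ≤ 1 := by
  obtain ⟨k2, k4, k6⟩ := ParTwo_b v h2 E ha1 ha2 ha3 ha4 ha6
  have ie := ParTwo_int v h2 k2 k4 k6 h
  have i12 : v (12 : K) ≤ 1 := by
    have := ParTwo_nat v 12
    exact_mod_cast this
  have i6 : v (6 : K) ≤ 1 := by
    have := ParTwo_nat v 6
    exact_mod_cast this
  constructor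
  · have : v (4 * a) ≤ 1 := by
      rw [ha]
      refine (v.map_add _ _).trans (max_le k2 ?_)
      rw [map_mul]
      exact mul_le_one' i12 ie
    rwa [map_mul, ParTwo_four v h2, one_mul] at this
  · have : v (2 * b) ≤ 1 := by
      rw [hb]
      refine (v.map_add _ _).trans (max_le ((v.map_add _ _).trans (max_le ?_ ?_)) k4)
      · rw [map_mul, map_pow]
        exact mul_le_one' i6 (pow_le_one' ie 2)
      · rw [map_mul]
        exact mul_le_one' k2 ie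
    rwa [map_mul, h2, one_mul] at this

private theorem ParTwo_c4 {K : Type} [Field K] {Γ : Type} [LinearOrderedCommGroupWithZero Γ]
    (v : Valuation K Γ) (E : WeierstrassCurve K) (k2 : v E.b₂ ≤ 1) (k4 : v E.b₄ ≤ 1) :
    v E.c₄ ≤ 1 := by
  have i24 : v (24 : K) ≤ 1 := by
    have := ParTwo_nat v 24
    exact_mod_cast this
  rw [WeierstrassCurve.c₄]
  refine (v.map_sub _ _).trans (max_le ?_ ?_)
  · rw [map_pow]
    exact pow_le_one' k2 2
  · rw [map_mul]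
    exact mul_le_one' i24 k4

private theorem ParTwo_goodj {K : Type} [Field K] [NumberField K] (E : WeierstrassCurve K)
    (w : HeightOneSpectrum (𝓞 K)) (h2 : w.valuation K (2 : K) = 1) (hg : GoodAt w E) :
    w.valuation K (E.c₄ ^ 3 / E.Δ) ≤ 1 := by
  obtain ⟨C, ha1, ha2, ha3, ha4, ha6, hD⟩ := hg
  obtain ⟨k2, k4, -⟩ := ParTwo_b _ h2 (C • E) ha1 ha2 ha3 ha4 ha6
  rw [← ParTwo_j E C, map_div₀, hD, div_one, map_pow]
  exact pow_le_one' (ParTwo_c4 _ _ k2 k4) 3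

private theorem ParTwo_two {K : Type} [Field K] {Γ : Type} [LinearOrderedCommGroupWithZero Γ]
    (v : Valuation K Γ) (h6 : v 6 = 1) : v 2 = 1 := by
  have i2 : v (2 : K) ≤ 1 := by
    have := ParTwo_nat v 2
    exact_mod_cast this
  have i3 : v (3 : K) ≤ 1 := by
    have := ParTwo_nat v 3
    exact_mod_cast this
  have e : (6 : K) = 2 * 3 := by norm_num
  rw [e, map_mul] at h6
  refine le_antisymm i2 (not_lt.1 fun hl => ?_)
  have h : v 2 * v 3 ≤ v (2 : K) := mul_le_of_le_one_right' i3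
  rw [h6] at h
  exact absurd hl (not_lt.2 h)

private theorem ParTwo_exp {z : WithZero (Multiplicative ℤ)} (h0 : z ≠ 0) (h1 : z ≤ 1) :
    ∃ n : ℕ, z = WithZero.exp (-(n : ℤ)) := by
  refine ⟨(-WithZero.log z).toNat, ?_⟩
  have h2 : WithZero.log z ≤ 0 := by
    rw [← WithZero.log_one]
    exact (WithZero.log_le_log h0 one_ne_zero).2 h1
  rw [Int.toNat_of_nonneg (by omega), neg_neg, WithZero.exp_log h0]

theorem parTwo : ParTwoS := by
  intro K _ _ E hE hT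
  obtain ⟨e, he⟩ : ∃ x : K, 4 * x ^ 3 + E.b₂ * x ^ 2 + 2 * E.b₄ * x + E.b₆ = 0 := by
    rcases hT with ⟨-, h⟩ | ⟨h, -⟩
    · exact h
    · omega
  have n4 : (4 : K) ≠ 0 := by norm_num
  have n2 : (2 : K) ≠ 0 := by norm_num
  obtain ⟨a, ha⟩ : ∃ a : K, 4 * a = E.b₂ + 12 * e :=
    ⟨(E.b₂ + 12 * e) / 4, mul_div_cancel₀ _ n4⟩
  obtain ⟨b, hb⟩ : ∃ b : K, 2 * b = 6 * e ^ 2 + E.b₂ * e + E.b₄ :=
    ⟨(6 * e ^ 2 + E.b₂ * e + E.b₄) / 2, mul_div_cancel₀ _ n2⟩
  obtain ⟨hΔ, hc4⟩ := ParTwo_disc E he ha hb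
  have hb0 : b ≠ 0 := by
    rintro rfl
    apply hE
    rw [hΔ]
    ring
  have hd0 : a ^ 2 - 4 * b ≠ 0 := by
    intro h
    apply hE
    rw [hΔ, h]
    ring
  obtain ⟨x, hx⟩ : ∃ x, x = -(a ^ 2 - 4 * b) / (4 * b) := ⟨_, rfl⟩
  refine ⟨x, ?_, Or.inl ⟨rfl, ?_⟩, ?_⟩
  · rw [hx]
    exact div_ne_zero (neg_ne_zero.2 hd0) (mul_ne_zero n4 hb0)
  · rw [hΔ, hc4, hx]
    obtain ⟨d, hd⟩ : ∃ d, d = a ^ 2 - 4 * b := ⟨_, rfl⟩
    have hd' : a ^ 2 - 3 * b = d + b := by rw [hd]; ring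
    rw [hd', ← hd]
    rw [← hd] at hd0
    field_simp
    ring
  · intro hx1 w h6 hs
    have h2 : w.valuation K (2 : K) = 1 := ParTwo_two _ h6
    obtain ⟨C, ha1, ha2, ha3, ha4, ha6, hD⟩ := hs
    have he' := ParTwo_root E C he
    obtain ⟨ha', hb'⟩ := ParTwo_change E C ha hb
    obtain ⟨u, hu⟩ : ∃ u : K, u = ((C.u⁻¹ : Kˣ) : K) := ⟨_, rfl⟩
    have hu0 : u ≠ 0 := by
      rw [hu]
      exact Units.ne_zero _
    obtain ⟨ia, ib⟩ := ParTwo_model _ h2 (C • E) ha1 ha2 ha3 ha4 ha6 he' ha' hb'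
    obtain ⟨hΔ', hc4'⟩ := ParTwo_disc (C • E) he' ha' hb'
    rw [← hu] at ia ib hΔ' hc4'
    obtain ⟨a', hadef⟩ : ∃ a', a' = u ^ 2 * a := ⟨_, rfl⟩
    obtain ⟨b', hbdef⟩ : ∃ b', b' = u ^ 4 * b := ⟨_, rfl⟩
    rw [← hadef, ← hbdef] at hΔ' hc4'
    rw [← hadef] at ia
    rw [← hbdef] at ib
    have hx' : x = -(a' ^ 2 - 4 * b') / (4 * b') := by
      rw [hx, hadef, hbdef]
      field_simp
    have hb0' : b' ≠ 0 := by
      rw [hbdef]
      exact mul_ne_zero (pow_ne_zero _ hu0) hb0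
    have ha0' : a' ≠ 0 := by
      intro h
      apply hx1
      rw [hx', h]
      field_simp
      ring
    by_cases hD1 : w.valuation K (C • E).Δ = 1
    · rw [hΔ'] at hD1
      obtain ⟨g1, g2⟩ := ParTwo_good _ h2 ia ib hD1
      have hv : w.valuation K x = 1 := by
        rw [ParTwo_quot _ h2 x hx', g1, g2, div_one]
      refine ⟨?_, fun h => absurd hv h⟩
      obtain ⟨n, hn⟩ := ParTwo_exp ((Valuation.ne_zero_iff _).2 ha0') ia
      refine ⟨n, ?_⟩
      rw [ParTwo_quot1 _ h2 hb0' n4 x hx', hv, max_self, one_mul, g1, div_one, hn,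
        ← WithZero.exp_nsmul]
      congr 1
      push_cast
      simp
    · have hc : w.valuation K (C • E).c₄ = 1 := hD.resolve_left hD1
      have hj : w.valuation K (E.c₄ ^ 3 / E.Δ) = (w.valuation K (C • E).Δ)⁻¹ := by
        rw [← ParTwo_j E C, map_div₀, map_pow, hc, one_pow, one_div]
      have iD : w.valuation K (C • E).Δ ≤ 1 := by
        rw [hΔ', map_mul, map_mul, ParTwo_sixteen _ h2, one_mul, map_pow]
        refine mul_le_one' (pow_le_one' ib 2) ?_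
        refine (Valuation.map_sub _ _ _).trans (max_le ?_ ?_)
        · rw [map_pow]
          exact pow_le_one' ia 2
        · rw [map_mul, ParTwo_four _ h2, one_mul]
          exact ib
      have hD0 : w.valuation K (C • E).Δ ≠ 0 := by
        rw [Valuation.ne_zero_iff, WeierstrassCurve.variableChange_Δ]
        exact mul_ne_zero (pow_ne_zero _ (Units.ne_zero _)) hE
      rw [hc4'] at hc
      refine ⟨⟨0, ?_⟩, fun _ hg => ?_⟩
      · rw [hΔ'] at hD1
        rw [ParTwo_bad _ h2 ia ib hb0' n4 hD1 hc x hx']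
        simp
      · have h7 := ParTwo_goodj E w h2 hg
        rw [hj, inv_le_one₀ (zero_lt_iff.2 hD0)] at h7
        exact hD1 (le_antisymm iD h7)

end Pool.Agent.TH876.TT
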