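import Mathlib
import Pool.Agent.TH876.TT.Def

set_option autoImplicit false

namespace Pool.Agent.TH876.TT

open NumberField IsDedekindDomain

private lemma Prod_log {ε : ℝ} (hε : 0 < ε) {X : ℝ} (hX : 1 ≤ X) :
    ((⌊Real.logb 2 X⌋₊ : ℝ) + 1) ≤ (1 / (ε * Real.log 2) + 1) * X ^ ε := by
  have h2 : 0 < Real.log 2 := Real.log_pos (by norm_num)
  have h3 : 0 ≤ Real.logb 2 X := Real.logb_nonneg (by norm_num) hX
  have h4 : (⌊Real.logb 2 X⌋₊ : ℝ) ≤ Real.logb 2 X := Nat.floor_le h3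
  have h5 : Real.log X ≤ X ^ ε / ε := Real.log_le_rpow_div (by linarith) hε
  have h6 : Real.logb 2 X ≤ 1 / (ε * Real.log 2) * X ^ ε := by
    unfold Real.logb
    rw [div_le_iff₀ h2]
    calc Real.log X ≤ X ^ ε / ε := h5
      _ = 1 / (ε * Real.log 2) * X ^ ε * Real.log 2 := by field_simp
  have h7 : 1 ≤ X ^ ε := Real.one_le_rpow hX hε.le
  linarith

/-- the set of tuples -/
private def Prod_S {α : Type} (P : ℝ → α → Prop) (g : ℕ) (X : ℝ) : Set (Fin g → α) :=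
  {x : Fin g → α | ∃ Y : Fin g → ℝ, (∀ i, P (Y i) (x i)) ∧ ∏ i, Y i ≤ X}

private lemma Prod_sub {α : Type} {P : ℝ → α → Prop}
    (hmono : ∀ x X Y, P X x → X ≤ Y → P Y x) (hone : ∀ x X, P X x → 1 ≤ X) (g : ℕ) (X : ℝ) :
    Prod_S P (g + 1) X ⊆ ⋃ k ∈ Finset.range (⌊Real.logb 2 X⌋₊ + 1),
      (fun p : α × (Fin g → α) => (Fin.cons p.1 p.2 : Fin (g + 1) → α)) ''
        ({a | P (2 ^ (k + 1)) a} ×ˢ Prod_S P g (X / 2 ^ k)) := by
  rintro x ⟨Y, hY, hp⟩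
  have hY1 : ∀ i, 1 ≤ Y i := fun i => hone _ _ (hY i)
  rw [Fin.prod_univ_succ] at hp
  have ht : 1 ≤ ∏ i : Fin g, Y i.succ := 
    Finset.prod_induction _ (fun y => 1 ≤ y) (fun a b ha hb => one_le_mul_of_one_le_of_one_le ha hb)
      le_rfl (fun i _ => hY1 i.succ)
  have hY0 : 0 < Y 0 := by linarith [hY1 0]
  have hl0 : 0 ≤ Real.logb 2 (Y 0) := Real.logb_nonneg (by norm_num) (hY1 0)
  set k := ⌊Real.logb 2 (Y 0)⌋₊ with hk
  have k1 : (k : ℝ) ≤ Real.logb 2 (Y 0) := Nat.floor_le hl0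
  have k2 : Real.logb 2 (Y 0) < k + 1 := Nat.lt_floor_add_one _
  have e0 : (2 : ℝ) ^ Real.logb 2 (Y 0) = Y 0 := Real.rpow_logb (by norm_num) (by norm_num) hY0
  have k3 : (2 : ℝ) ^ k ≤ Y 0 := by
    rw [← e0, ← Real.rpow_natCast]
    exact Real.rpow_le_rpow_of_exponent_le (by norm_num) k1
  have k4 : Y 0 ≤ 2 ^ (k + 1) := by
    rw [← e0, ← Real.rpow_natCast]
    refine Real.rpow_le_rpow_of_exponent_le (by norm_num) ?_
    push_cast
    exact k2.le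
  have hYX : Y 0 ≤ X := by nlinarith
  simp only [Set.mem_iUnion, Finset.mem_range]
  refine ⟨k, ?_, ⟨(x 0, Fin.tail x), ⟨hmono _ _ _ (hY 0) k4, ⟨fun i => Y i.succ,
    fun i => hY i.succ, ?_⟩⟩, ?_⟩⟩
  · have : k ≤ ⌊Real.logb 2 X⌋₊ :=
      Nat.floor_le_floor (Real.logb_le_logb_of_le (by norm_num) hY0 hYX)
    omega
  · rw [le_div_iff₀ (by positivity)]
    calc (∏ i : Fin g, Y i.succ) * 2 ^ k ≤ (∏ i : Fin g, Y i.succ) * Y 0 :=
          mul_le_mul_of_nonneg_left k3 (by linarith)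
      _ ≤ X := by rw [mul_comm]; exact hp
  · exact Fin.cons_self_tail x

theorem prod : ProdS := by
  intro ι α P W θ hθ hW hmono hone hbase g
  induction g with
  | zero =>
    intro ε hε
    refine ⟨1, zero_le_one, fun i X hX => ?_⟩
    refine ⟨Set.toFinite _, ?_⟩
    have h1 : ({x : Fin 0 → α | ∃ Y : Fin 0 → ℝ, (∀ k, P i (Y k) (x k)) ∧ ∏ k, Y k ≤ X}.ncard
        : ℝ) ≤ 1 := by
      have : {x : Fin 0 → α | ∃ Y : Fin 0 → ℝ, (∀ k, P i (Y k) (x k)) ∧ ∏ k, Y k ≤ X}.ncard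
          ≤ 1 :=
        (Set.ncard_le_one (Set.toFinite _)).2 fun a _ b _ => Subsingleton.elim a b
      exact_mod_cast this
    have h2 : 1 ≤ X ^ (θ + ε) := Real.one_le_rpow hX (by linarith)
    simpa using h1.trans h2
  | succ g ih =>
    intro ε hε
    obtain ⟨C1, hC1, h1⟩ := hbase (ε / 2) (by linarith)
    obtain ⟨C2, hC2, h2⟩ := ih (ε / 2) (by linarith)
    set C3 : ℝ := 1 / (ε / 2 * Real.log 2) + 1 with hC3
    have hlog2 : 0 < Real.log 2 := Real.log_pos (by norm_num)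
    have hC30 : 0 ≤ C3 := by positivity
    refine ⟨C3 * (C1 * C2 * 2 ^ (θ + ε / 2)), by positivity, fun i X hX => ?_⟩
    have hX0 : 0 < X := by linarith
    have hH0 : 0 ≤ W i := by linarith [hW i]
    have hk : ∀ k ∈ Finset.range (⌊Real.logb 2 X⌋₊ + 1), (1 : ℝ) ≤ X / 2 ^ k := by
      intro k hk
      rw [Finset.mem_range] at hk
      have h3 : 0 ≤ Real.logb 2 X := Real.logb_nonneg (by norm_num) hX
      have h4 : (k : ℝ) ≤ Real.logb 2 X := by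
        have h5 : (k : ℝ) ≤ (⌊Real.logb 2 X⌋₊ : ℝ) := by exact_mod_cast (by omega : k ≤ ⌊Real.logb 2 X⌋₊)
        exact h5.trans (Nat.floor_le h3)
      rw [one_le_div (by positivity)]
      calc (2 : ℝ) ^ k = (2 : ℝ) ^ (k : ℝ) := (Real.rpow_natCast _ _).symm
        _ ≤ (2 : ℝ) ^ Real.logb 2 X := Real.rpow_le_rpow_of_exponent_le (by norm_num) h4
        _ = X := Real.rpow_logb (by norm_num) (by norm_num) hX0
    have fA : ∀ k : ℕ, {a | P i (2 ^ (k + 1)) a}.Finite := fun k =>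
      (h1 i (2 ^ (k + 1)) (one_le_pow₀ (by norm_num))).1
    have fB : ∀ k ∈ Finset.range (⌊Real.logb 2 X⌋₊ + 1), (Prod_S (P i) g (X / 2 ^ k)).Finite :=
      fun k hk' => (h2 i (X / 2 ^ k) (hk k hk')).1
    have hfin : (⋃ k ∈ Finset.range (⌊Real.logb 2 X⌋₊ + 1),
      (fun p : α × (Fin g → α) => (Fin.cons p.1 p.2 : Fin (g + 1) → α)) ''
        ({a | P i (2 ^ (k + 1)) a} ×ˢ Prod_S (P i) g (X / 2 ^ k))).Finite :=
      Set.Finite.biUnion (Finset.finite_toSet _) fun k hk' => ((fA k).prod (fB k hk')).image _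
    have hsub := Prod_sub (hmono i) (hone i) g X
    refine ⟨hfin.subset hsub, ?_⟩
    have e1 : ∀ k ∈ Finset.range (⌊Real.logb 2 X⌋₊ + 1),
        (((fun p : α × (Fin g → α) => (Fin.cons p.1 p.2 : Fin (g + 1) → α)) ''
        ({a | P i (2 ^ (k + 1)) a} ×ˢ Prod_S (P i) g (X / 2 ^ k))).ncard : ℝ) ≤
        C1 * C2 * 2 ^ (θ + ε / 2) * (W i) ^ (g + 1) * X ^ (θ + ε / 2) := by
      intro k hk'
      have a1 := (h1 i (2 ^ (k + 1)) (one_le_pow₀ (by norm_num))).2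
      have a2 := (h2 i (X / 2 ^ k) (hk k hk')).2
      have a3 : (((fun p : α × (Fin g → α) => (Fin.cons p.1 p.2 : Fin (g + 1) → α)) ''
        ({a | P i (2 ^ (k + 1)) a} ×ˢ Prod_S (P i) g (X / 2 ^ k))).ncard : ℝ) ≤
        ({a | P i (2 ^ (k + 1)) a}.ncard : ℝ) *
          ((Prod_S (P i) g (X / 2 ^ k)).ncard : ℝ) := by
        have := Set.ncard_image_le (f := fun p : α × (Fin g → α) =>
          (Fin.cons p.1 p.2 : Fin (g + 1) → α)) ((fA k).prod (fB k hk'))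
        rw [Set.ncard_prod] at this
        exact_mod_cast this
      have a4 : (0 : ℝ) ≤ ((Prod_S (P i) g (X / 2 ^ k)).ncard : ℝ) := Nat.cast_nonneg _
      have e2 : ((2 : ℝ) ^ (k + 1)) ^ (θ + ε / 2) * (X / 2 ^ k) ^ (θ + ε / 2) =
          2 ^ (θ + ε / 2) * X ^ (θ + ε / 2) := by
        rw [← Real.mul_rpow (by positivity) (by positivity),
          ← Real.mul_rpow (by norm_num) hX0.le]
        congr 1
        rw [pow_succ]
        field_simp
      calc _ ≤ _ := a3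
        _ ≤ (C1 * W i * ((2 : ℝ) ^ (k + 1)) ^ (θ + ε / 2)) *
            (C2 * W i ^ g * (X / 2 ^ k) ^ (θ + ε / 2)) :=
          mul_le_mul a1 a2 a4 (by positivity)
        _ = C1 * C2 * W i ^ (g + 1) * (((2 : ℝ) ^ (k + 1)) ^ (θ + ε / 2) *
            (X / 2 ^ k) ^ (θ + ε / 2)) := by ring
        _ = _ := by rw [e2]; ring
    have e3 : ((⋃ k ∈ Finset.range (⌊Real.logb 2 X⌋₊ + 1),
      (fun p : α × (Fin g → α) => (Fin.cons p.1 p.2 : Fin (g + 1) → α)) ''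
        ({a | P i (2 ^ (k + 1)) a} ×ˢ Prod_S (P i) g (X / 2 ^ k))).ncard : ℝ) ≤
        ∑ k ∈ Finset.range (⌊Real.logb 2 X⌋₊ + 1),
        (((fun p : α × (Fin g → α) => (Fin.cons p.1 p.2 : Fin (g + 1) → α)) ''
        ({a | P i (2 ^ (k + 1)) a} ×ˢ Prod_S (P i) g (X / 2 ^ k))).ncard : ℝ) := by
      exact_mod_cast Finset.set_ncard_biUnion_le _ _
    have e4 := Finset.sum_le_sum e1
    rw [Finset.sum_const, Finset.card_range, nsmul_eq_mul] at e4
    have e5 : ((Prod_S (P i) (g + 1) X).ncard : ℝ) ≤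
        ((⋃ k ∈ Finset.range (⌊Real.logb 2 X⌋₊ + 1),
      (fun p : α × (Fin g → α) => (Fin.cons p.1 p.2 : Fin (g + 1) → α)) ''
        ({a | P i (2 ^ (k + 1)) a} ×ˢ Prod_S (P i) g (X / 2 ^ k))).ncard : ℝ) := by
      exact_mod_cast Set.ncard_le_ncard hsub hfin
    have e6 := Prod_log (show 0 < ε / 2 by linarith) hX
    have e7 : X ^ (ε / 2) * X ^ (θ + ε / 2) = X ^ (θ + ε) := by
      rw [← Real.rpow_add hX0]
      congr 1
      ring
    calc ((Prod_S (P i) (g + 1) X).ncard : ℝ)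
        ≤ ((⌊Real.logb 2 X⌋₊ + 1 : ℕ) : ℝ) *
          (C1 * C2 * 2 ^ (θ + ε / 2) * W i ^ (g + 1) * X ^ (θ + ε / 2)) := e5.trans (e3.trans e4)
      _ ≤ (C3 * X ^ (ε / 2)) *
          (C1 * C2 * 2 ^ (θ + ε / 2) * W i ^ (g + 1) * X ^ (θ + ε / 2)) := by
        apply mul_le_mul_of_nonneg_right _ (by positivity)
        push_cast
        exact e6
      _ = C3 * (C1 * C2 * 2 ^ (θ + ε / 2)) * W i ^ (g + 1) * (X ^ (ε / 2) * X ^ (θ + ε / 2)) := by
        ring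
      _ = _ := by rw [e7]

end Pool.Agent.TH876.TT
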