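import Mathlib
import Pool.Agent.TH876.TT.Def

set_option autoImplicit false

/-!
# The count of violators (helper460)
-/

namespace Pool.Agent.TH876.TT

open NumberField IsDedekindDomain
open Pool.Agent.TH876.FH (faltings IsPeriod GoodAt badNorm)

theorem Viol_one_le {K : Type} [Field K] [NumberField K] (E : WeierstrassCurve K) :
    1 ≤ badNorm E := by
  have key : ∀ v : HeightOneSpectrum (𝓞 K), (1 : ℝ) ≤ (Ideal.absNorm v.asIdeal : ℝ) := by
    intro v
    have : 1 ≤ Ideal.absNorm v.asIdeal := by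
      rw [Nat.one_le_iff_ne_zero]
      intro h0
      rw [Ideal.absNorm_eq_zero_iff] at h0
      exact v.ne_bot h0
    exact_mod_cast this
  unfold badNorm
  refine finprod_mem_induction (fun x : ℝ => 1 ≤ x) le_rfl ?_ ?_
  · intro x y hx hy
    nlinarith
  · intro v _
    exact key v

theorem viol (h : MainS) (h4 : BadS) : ViolS := by
  have _h4 := h4
  intro K _ _ m S hm hS g κ c δ hκ hδ
  have hm0 : (0 : ℝ) < m := by
    rcases hm with rfl | rfl <;> norm_num
  set θ : ℝ := ((m : ℝ) + 1) / (2 * m) with hθ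
  have hθ0 : 0 < θ := by positivity
  obtain ⟨C, hC⟩ := h K m S hm hS g (κ * δ / 2) (by positivity)
  set A : ℝ := 1 + Real.exp (-c / κ) with hA
  have hA1 : 1 ≤ A := by
    have := Real.exp_pos (-c / κ)
    linarith
  set a : ℝ := δ / (2 * (g + 1)) with ha
  have ha0 : 0 < a := by positivity
  refine ⟨|C| * A ^ (θ + κ * δ / 2) * (1 + 1 / a) ^ g, fun y B hy hB => ?_⟩
  have hB0 : 0 < B := by linarith
  have hlB : 0 ≤ Real.log B := Real.log_nonneg hB
  have hBk : 1 ≤ B ^ (1 / κ) := Real.one_le_rpow hB (by positivity)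
  set X : ℝ := A * B ^ (1 / κ) with hX
  have hX1 : 1 ≤ X := by nlinarith
  set H : ℝ := 1 + Real.log B with hH
  have hH1 : 1 ≤ H := by linarith
  obtain ⟨hfin, hcard⟩ := hC X y H hX1 hy hH1
  have hsub : Viol K m S g κ c y B ⊆ Classes K m S g X y H := by
    rintro j ⟨E, τ, hE, hHt, hbad⟩
    refine ⟨E, τ, hE, ?_, by linarith⟩
    have hpos : 0 < ∏ i, badNorm (E i) :=
      Finset.prod_pos fun i _ => lt_of_lt_of_le one_pos (Viol_one_le (E i))
    have h7 : κ * Real.log (∏ i, badNorm (E i)) < Real.log B - c := by linarith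
    have h8 : Real.log (∏ i, badNorm (E i)) ≤ (Real.log B - c) / κ := by
      rw [le_div_iff₀ hκ]
      linarith
    have h9 := (Real.log_le_iff_le_exp hpos).1 h8
    refine h9.trans ?_
    have h10 : Real.exp ((Real.log B - c) / κ) = Real.exp (-c / κ) * B ^ (1 / κ) := by
      rw [Real.rpow_def_of_pos hB0, ← Real.exp_add]
      congr 1
      field_simp
      ring
    rw [h10, hX]
    refine mul_le_mul_of_nonneg_right ?_ (by linarith)
    linarith
  refine ⟨hfin.subset hsub, ?_⟩
  have h6 : (Viol K m S g κ c y B).ncard ≤ (Classes K m S g X y H).ncard :=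
    Set.ncard_le_ncard hsub hfin
  have hXt : X ^ (θ + κ * δ / 2) = A ^ (θ + κ * δ / 2) * B ^ (θ / κ + δ / 2) := by
    rw [hX, Real.mul_rpow (by linarith) (by linarith), ← Real.rpow_mul hB0.le]
    congr 2
    field_simp
  have hlog : (1 + Real.log H) ^ g ≤ (1 + 1 / a) ^ g * B ^ (δ / 2) := by
    have e1 : Real.log H ≤ Real.log B := by
      have := Real.log_le_sub_one_of_pos (show 0 < H by linarith)
      linarith
    have e2 : Real.log B ≤ B ^ a / a := Real.log_le_rpow_div hB0.le ha0
    have e3 : 1 ≤ B ^ a := Real.one_le_rpow hB ha0.le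
    have e4 : 1 + Real.log H ≤ (1 + 1 / a) * B ^ a := by
      have : (1 + 1 / a) * B ^ a = B ^ a + B ^ a / a := by ring
      linarith
    have e5 : 0 ≤ 1 + Real.log H := by
      have := Real.log_nonneg hH1
      linarith
    calc (1 + Real.log H) ^ g ≤ ((1 + 1 / a) * B ^ a) ^ g := pow_le_pow_left₀ e5 e4 g
      _ = (1 + 1 / a) ^ g * B ^ (a * g) := by
          rw [mul_pow, ← Real.rpow_mul_natCast hB0.le]
      _ ≤ (1 + 1 / a) ^ g * B ^ (δ / 2) := by
          refine mul_le_mul_of_nonneg_left (Real.rpow_le_rpow_of_exponent_le hB ?_) (by positivity)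
          rw [ha, div_mul_eq_mul_div, div_le_div_iff₀ (by positivity) (by positivity)]
          have : (0 : ℝ) ≤ g := Nat.cast_nonneg g
          nlinarith
  have hyg : 0 ≤ y ^ g := by positivity
  have hlg : 0 ≤ (1 + Real.log H) ^ g := by
    have := Real.log_nonneg hH1
    positivity
  have hXn : 0 ≤ X ^ (θ + κ * δ / 2) := Real.rpow_nonneg (by linarith) _
  calc ((Viol K m S g κ c y B).ncard : ℝ) ≤ ((Classes K m S g X y H).ncard : ℝ) := by
        exact_mod_cast h6
    _ ≤ C * y ^ g * X ^ (θ + κ * δ / 2) * (1 + Real.log H) ^ g := hcard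
    _ ≤ |C| * y ^ g * X ^ (θ + κ * δ / 2) * (1 + Real.log H) ^ g := by
        gcongr
        exact le_abs_self C
    _ ≤ |C| * y ^ g * X ^ (θ + κ * δ / 2) * ((1 + 1 / a) ^ g * B ^ (δ / 2)) := by
        gcongr
    _ = |C| * A ^ (θ + κ * δ / 2) * (1 + 1 / a) ^ g * y ^ g *
          (B ^ (θ / κ + δ / 2) * B ^ (δ / 2)) := by
        rw [hXt]; ring
    _ = |C| * A ^ (θ + κ * δ / 2) * (1 + 1 / a) ^ g * y ^ g *
          B ^ (((m : ℝ) + 1) / (2 * m * κ) + δ) := by
        rw [← Real.rpow_add hB0]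
        congr 2
        rw [hθ]
        field_simp
        ring

end Pool.Agent.TH876.TT
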