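import Mathlib
import Pool.Agent.TH876.TT.Def

set_option autoImplicit false

/-!
# The count of the parameters
-/

namespace Pool.Agent.TH876.TT

open NumberField IsDedekindDomain

private theorem Cnt_six {K : Type} [Field K] [NumberField K] :
    {v : HeightOneSpectrum (𝓞 K) | v.valuation K (6 : K) ≠ 1}.Finite := by
  have h6 : (6 : 𝓞 K) ≠ 0 := by
    intro h
    have h1 := congrArg (algebraMap (𝓞 K) K) h
    rw [map_ofNat, map_zero] at h1
    exact absurd h1 (by norm_num)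
  refine (Ideal.finite_factors (I := Ideal.span {(6 : 𝓞 K)}) (by
    rw [Ne, Ideal.zero_eq_bot, Ideal.span_singleton_eq_bot]
    exact h6)).subset ?_
  intro v hv
  have h2 : algebraMap (𝓞 K) K 6 = 6 := map_ofNat _ _
  have h1 : v.valuation K (algebraMap (𝓞 K) K 6) ≤ 1 := v.valuation_le_one (K := K) (6 : 𝓞 K)
  refine (v.valuation_lt_one_iff_dvd (K := K) 6).1 (lt_of_le_of_ne h1 ?_)
  have h3 : v.valuation K (algebraMap (𝓞 K) K 6) ≠ 1 := by
    rw [h2]
    exact hv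
  exact h3

private theorem Cnt_one_le {K : Type} [Field K] [NumberField K] (v : HeightOneSpectrum (𝓞 K)) :
    (1 : ℝ) ≤ (Ideal.absNorm v.asIdeal : ℝ) := by
  have h := NumberField.HeightOneSpectrum.one_lt_absNorm v
  exact_mod_cast h.le

private theorem Cnt_mem {K : Type} [Field K] [NumberField K] {m : ℕ}
    {S : Set (HeightOneSpectrum (𝓞 K))} {y H X : ℝ} {x : K} (hx : Par m S y H X x)
    (hx1 : x ≠ 1) : x ∈ Pool.Agent.TH876.NP.StackyPts
      (S ∪ {v : HeightOneSpectrum (𝓞 K) | v.valuation K (6 : K) ≠ 1}) m X y H := by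
  classical
  obtain ⟨hx0, -, hH, hx⟩ := hx
  rcases hx with hx | ⟨hst, T, hT1, hT2, hT3⟩
  · exact absurd hx hx1
  have hn : ∀ v : HeightOneSpectrum (𝓞 K),
      v ∉ S ∪ {v : HeightOneSpectrum (𝓞 K) | v.valuation K (6 : K) ≠ 1} →
      v ∉ S ∧ v.valuation K (6 : K) = 1 := by
    intro v hv
    refine ⟨fun h => hv (Or.inl h), ?_⟩
    by_contra h
    exact hv (Or.inr h)
  have hmem : ∀ v : HeightOneSpectrum (𝓞 K),
      v ∉ S ∪ {v : HeightOneSpectrum (𝓞 K) | v.valuation K (6 : K) ≠ 1} →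
      v.valuation K x ≠ 1 → v ∈ T := by
    intro v hv hvx
    by_contra hvT
    exact hvx (hT3 v hvT (hn v hv).1 (hn v hv).2)
  refine ⟨hx0, hx1, fun v hv => hst v (hn v hv).1 (hn v hv).2, ?_,
    fun v hv hvx => hT2 v (hmem v hv hvx) (hn v hv).1, hH⟩
  set F : Finset (HeightOneSpectrum (𝓞 K)) := T.filter (fun v =>
    v ∉ S ∪ {v : HeightOneSpectrum (𝓞 K) | v.valuation K (6 : K) ≠ 1} ∧ v.valuation K x ≠ 1)
    with hF
  have hA : {v : HeightOneSpectrum (𝓞 K) |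
      v ∉ S ∪ {v : HeightOneSpectrum (𝓞 K) | v.valuation K (6 : K) ≠ 1} ∧
        v.valuation K x ≠ 1} = (F : Set (HeightOneSpectrum (𝓞 K))) := by
    ext v
    rw [hF, Finset.coe_filter]
    exact ⟨fun hv => ⟨hmem v hv.1 hv.2, hv⟩, fun hv => hv.2⟩
  rw [hA, finsum_mem_coe_finset]
  calc Real.exp (∑ v ∈ F, Real.log (Ideal.absNorm v.asIdeal : ℝ))
      ≤ Real.exp (∑ v ∈ T, Real.log (Ideal.absNorm v.asIdeal : ℝ)) :=
        Real.exp_le_exp.2 (Finset.sum_le_sum_of_subset_of_nonneg (Finset.filter_subset _ _)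
          fun v _ _ => Real.log_nonneg (Cnt_one_le v))
    _ = ∏ v ∈ T, (Ideal.absNorm v.asIdeal : ℝ) := by
        rw [Real.exp_sum]
        exact Finset.prod_congr rfl fun v _ =>
          Real.exp_log (lt_of_lt_of_le one_pos (Cnt_one_le v))
    _ ≤ X := hT1

theorem cnt (h : ∀ (K : Type) [Field K] [NumberField K], Pool.Agent.TH876.NP.StackyS K) : CntS := by
  classical
  intro K _ _ m S hS hm ε hε
  obtain ⟨C, hC⟩ := h K (S ∪ {v : HeightOneSpectrum (𝓞 K) | v.valuation K (6 : K) ≠ 1})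
    (hS.union Cnt_six) m ε hm hε
  refine ⟨1 + |C|, by positivity, ?_⟩
  intro y H X hy hH hX
  obtain ⟨hfin, hcard⟩ := hC X y H hX hy hH
  have hsub : {x : K | Par m S y H X x} ⊆ insert (1 : K) (Pool.Agent.TH876.NP.StackyPts
      (S ∪ {v : HeightOneSpectrum (𝓞 K) | v.valuation K (6 : K) ≠ 1}) m X y H) := by
    intro x hx
    by_cases hx1 : x = 1
    · exact Or.inl hx1
    · exact Or.inr (Cnt_mem hx hx1)
  refine ⟨(hfin.insert 1).subset hsub, ?_⟩
  have h1 := Set.ncard_le_ncard hsub (hfin.insert 1)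
  have h2 := h1.trans (Set.ncard_insert_le _ _)
  have h3 : ({x : K | Par m S y H X x}.ncard : ℝ) ≤ ((Pool.Agent.TH876.NP.StackyPts
      (S ∪ {v : HeightOneSpectrum (𝓞 K) | v.valuation K (6 : K) ≠ 1}) m X y H).ncard : ℝ) + 1 := by
    exact_mod_cast h2
  have hl : 0 ≤ Real.log H := Real.log_nonneg hH
  have hX1 : 1 ≤ X ^ (((m : ℝ) + 1) / (2 * m) + ε) := Real.one_le_rpow hX (by positivity)
  have h4 : 1 ≤ y * (1 + Real.log H) := by nlinarith
  have h5 : 1 ≤ y * (1 + Real.log H) * X ^ (((m : ℝ) + 1) / (2 * m) + ε) := by nlinarith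
  have h6 : C * y * X ^ (((m : ℝ) + 1) / (2 * m) + ε) * (1 + Real.log H) ≤
      |C| * (y * (1 + Real.log H) * X ^ (((m : ℝ) + 1) / (2 * m) + ε)) := by
    calc C * y * X ^ (((m : ℝ) + 1) / (2 * m) + ε) * (1 + Real.log H)
        = C * (y * (1 + Real.log H) * X ^ (((m : ℝ) + 1) / (2 * m) + ε)) := by ring
      _ ≤ _ := mul_le_mul_of_nonneg_right (le_abs_self C) (by linarith)
  calc ({x : K | Par m S y H X x}.ncard : ℝ) ≤ _ := h3
    _ ≤ C * y * X ^ (((m : ℝ) + 1) / (2 * m) + ε) * (1 + Real.log H) + 1 := by linarith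
    _ ≤ |C| * (y * (1 + Real.log H) * X ^ (((m : ℝ) + 1) / (2 * m) + ε)) +
        y * (1 + Real.log H) * X ^ (((m : ℝ) + 1) / (2 * m) + ε) := add_le_add h6 h5
    _ = _ := by ring

end Pool.Agent.TH876.TT
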